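import Pool.Agent.Lib.MP_fd6ff4_co.R43.Alg.LinB
import Pool.Agent.Lib.MP_fd6ff4_co.R43.Statement

/-!
# R43, part T3: simplicial chains with values in the exterior algebra
-/

set_option autoImplicit false

open Finset

namespace Pool.Agent.Lib.MP_fd6ff4_co.R43

variable {K : Type*} [Field K] {d n : ℕ}

/-- The hypothesis on the topology, for the field `K`: for the faces of `Γ_U` which contain the face
`F` the chain complex is exact at the faces with `r < #U` vertices. -/
def ExactAt (K : Type*) [Field K] (σ : Fin n → Finset (Fin d)) (Γ : Finset (Finset (Fin n)))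
    (U : Finset (Fin d)) (F : Finset (Fin n)) (r : ℕ) : Prop :=
  ∀ z : Finset (Fin n) → K,
    (∀ H, F ⊆ H → #H + 1 = r →
      ∑ v ∈ univ.filter (fun v => v ∉ H ∧ insert v H ∈ sub σ Γ U),
        (sgn v H : K) * z (insert v H) = 0) →
    ∃ y : Finset (Fin n) → K, ∀ G ∈ sub σ Γ U, F ⊆ G → #G = r →
      ∑ v ∈ univ.filter (fun v => v ∉ G ∧ insert v G ∈ sub σ Γ U),
        (sgn v G : K) * y (insert v G) = z G

/-- the boundary of a chain -/
def bd (x : Finset (Fin n) → Lam K d) (H : Finset (Fin n)) : Lam K d :=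
  ∑ v ∈ univ \ H, (sgn v H : K) • x (insert v H)

theorem bd_add (x y : Finset (Fin n) → Lam K d) (H : Finset (Fin n)) :
    bd (x + y) H = bd x H + bd y H := by
  simp only [bd, Pi.add_apply, smul_add, sum_add_distrib]

theorem bd_sub (x y : Finset (Fin n) → Lam K d) (H : Finset (Fin n)) :
    bd (x - y) H = bd x H - bd y H := by
  simp only [bd, Pi.sub_apply, smul_sub, sum_sub_distrib]

theorem bd_neg (x : Finset (Fin n) → Lam K d) (H : Finset (Fin n)) : bd (-x) H = -bd x H := by
  simp only [bd, Pi.neg_apply, smul_neg, sum_neg_distrib]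

theorem bd_sum {ι : Type*} (s : Finset ι) (x : ι → Finset (Fin n) → Lam K d)
    (H : Finset (Fin n)) : bd (∑ i ∈ s, x i) H = ∑ i ∈ s, bd (x i) H := by
  simp only [bd, Finset.sum_apply, smul_sum]
  exact sum_comm

theorem bd_zero (H : Finset (Fin n)) : bd (0 : Finset (Fin n) → Lam K d) H = 0 := by
  simp only [bd, Pi.zero_apply, smul_zero, sum_const_zero]

/-- PROOF. The terms for `(v, w)` and `(w, v)` cancel (`sgn_insert_insert`);
`Finset.sum_involution` on the pairs of different `v`, `w ∉ H`. -/
theorem bd_bd (x : Finset (Fin n) → Lam K d) (H : Finset (Fin n)) : bd (bd x) H = 0 := by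
  simp only [bd, smul_sum, smul_smul]
  rw [Finset.sum_sigma']
  refine Finset.sum_involution (fun p _ => ⟨p.2, p.1⟩) ?_ ?_ ?_ ?_
  · rintro ⟨v, w⟩ hp
    simp only [mem_sigma, mem_sdiff, mem_univ, true_and, mem_insert, not_or] at hp
    have h1 := sgn_insert_insert hp.1 hp.2.2 (Ne.symm hp.2.1)
    have h2 : ((sgn v H : K) * (sgn w (insert v H) : K)) =
        -((sgn w H : K) * (sgn v (insert w H) : K)) := by
      exact_mod_cast congrArg (Int.cast : ℤ → K) h1
    change ((sgn v H : K) * (sgn w (insert v H) : K)) • x (insert w (insert v H)) +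
      ((sgn w H : K) * (sgn v (insert w H) : K)) • x (insert v (insert w H)) = 0
    rw [h2, Finset.insert_comm w v H, ← add_smul, neg_add_cancel, zero_smul]
  · rintro ⟨v, w⟩ hp _ he
    simp only [mem_sigma, mem_sdiff, mem_univ, true_and, mem_insert, not_or] at hp
    have h3 : w = v := congrArg Sigma.fst he
    exact hp.2.1 h3
  · rintro ⟨v, w⟩ hp
    simp only [mem_sigma, mem_sdiff, mem_univ, true_and, mem_insert, not_or] at hp ⊢
    exact ⟨hp.2.2, Ne.symm hp.2.1, hp.1⟩
  · rintro ⟨v, w⟩ hp
    rfl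

theorem wd_bd (a : Fin d → K) (x : Finset (Fin n) → Lam K d) (H : Finset (Fin n)) :
    wd a (bd x H) = bd (fun G => wd a (x G)) H := by
  simp only [bd, map_sum, map_smul]

/-- Exactness for chains with values in `MU K W k`. PROOF. `h` for every coordinate `P ⊆ W`,
`#P = k` of `x` (the other coordinates of `y` are zero); `y G = 0` if `G` is not a face of `Γ_U`
with `r + 1` vertices which contains `F`. -/
theorem exact_lam {σ : Fin n → Finset (Fin d)} {Γ : Finset (Finset (Fin n))}
    (hdown : ∀ F ∈ Γ, ∀ G, G ⊆ F → G ∈ Γ)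
    {U : Finset (Fin d)} {F : Finset (Fin n)} {r : ℕ} (h : ExactAt K σ Γ U F r)
    (W : Finset (Fin d)) (k : ℕ) (x : Finset (Fin n) → Lam K d)
    (hx : ∀ G, x G ≠ 0 → F ⊆ G → G ∈ sub σ Γ U ∧ #G = r) (hx' : ∀ G, x G ∈ MU K W k)
    (hc : ∀ H, F ⊆ H → #H + 1 = r → bd x H = 0) :
    ∃ y : Finset (Fin n) → Lam K d,
      (∀ G, y G ≠ 0 → G ∈ sub σ Γ U ∧ F ⊆ G ∧ #G = r + 1) ∧ (∀ G, y G ∈ MU K W k) ∧
      ∀ G, F ⊆ G → bd y G = x G := by
  classical
  have h1 : ∀ P : Finset (Fin d), ∃ y : Finset (Fin n) → K, ∀ G ∈ sub σ Γ U, F ⊆ G → #G = r →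
      ∑ v ∈ univ.filter (fun v => v ∉ G ∧ insert v G ∈ sub σ Γ U),
        (sgn v G : K) * y (insert v G) = x G P := by
    intro P
    refine h (fun G => x G P) fun H hH hr => ?_
    have h2 := congrFun (hc H hH hr) P
    rw [bd, Finset.sum_apply] at h2
    rw [Pi.zero_apply] at h2
    rw [← h2]
    refine Finset.sum_subset (fun v hv => ?_) fun v hv hv' => ?_
    · rw [mem_filter] at hv
      rw [mem_sdiff]
      exact ⟨mem_univ v, hv.2.1⟩
    · rw [mem_sdiff] at hv
      rw [mem_filter, not_and, not_and] at hv'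
      have h3 := hv' (mem_univ v) hv.2
      have h4 : x (insert v H) = 0 := by
        by_contra hne
        exact h3 (hx _ hne (hH.trans (subset_insert v H))).1
      rw [h4, Pi.zero_apply, mul_zero]
  choose y hy using h1
  refine ⟨fun G P => if P ⊆ W ∧ #P = k then
    (if G ∈ sub σ Γ U ∧ F ⊆ G ∧ #G = r + 1 then y P G else 0) else 0, ?_, ?_, ?_⟩
  · intro G hG
    by_contra hne
    apply hG
    funext P
    simp only [if_neg hne, ite_self, Pi.zero_apply]
  · intro G P hP
    by_contra hne
    exact hP (if_neg hne)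
  · intro G hG
    funext P
    rw [bd, Finset.sum_apply]
    simp only [Pi.smul_apply, smul_eq_mul]
    by_cases hP : P ⊆ W ∧ #P = k
    · simp only [if_pos hP]
      by_cases hGs : G ∈ sub σ Γ U ∧ #G = r
      · rw [← hy P G hGs.1 hG hGs.2]
        rw [← Finset.sum_subset (s₁ := univ.filter (fun v => v ∉ G ∧ insert v G ∈ sub σ Γ U))]
        · refine Finset.sum_congr rfl fun v hv => ?_
          rw [mem_filter] at hv
          rw [if_pos]
          exact ⟨hv.2.2, hG.trans (subset_insert v G),
            by rw [card_insert_of_notMem hv.2.1, hGs.2]⟩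
        · intro v hv
          rw [mem_filter] at hv
          rw [mem_sdiff]
          exact ⟨mem_univ v, hv.2.1⟩
        · intro v hv hv'
          rw [mem_sdiff] at hv
          rw [mem_filter, not_and, not_and] at hv'
          have h3 := hv' (mem_univ v) hv.2
          rw [if_neg (fun hh => h3 hh.1), mul_zero]
      · have h5 : x G = 0 := by
          by_contra hne
          exact hGs (hx G hne hG)
        rw [h5, Pi.zero_apply]
        refine Finset.sum_eq_zero fun v hv => ?_
        rw [mem_sdiff] at hv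
        rw [if_neg, mul_zero]
        rintro ⟨h6, h7, h8⟩
        apply hGs
        rw [card_insert_of_notMem hv.2] at h8
        refine ⟨?_, by omega⟩
        rw [sub, mem_filter] at h6 ⊢
        refine ⟨hdown _ h6.1 _ (subset_insert v G), ?_⟩
        exact (biUnion_subset_biUnion_of_subset_left σ (subset_insert v G)).trans h6.2
    · simp only [if_neg hP, mul_zero, sum_const_zero]
      by_contra hne
      exact hP (hx' G P (Ne.symm hne))

end Pool.Agent.Lib.MP_fd6ff4_co.R43
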