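import Pool.Agent.Lib.MP_fd6ff4_co.R43.Alg.Fin
import Pool.Agent.Lib.MP_fd6ff4_co.R43.Top.ExactSub

/-!
# R43, part T3 with the topology
-/

set_option autoImplicit false

open Finset

namespace Pool.Agent.Lib.MP_fd6ff4_co.R43

theorem sg_eq_sgn {n : ℕ} (K : Type*) [Field K] (v : Fin n) (H : Finset (Fin n)) :
    Top.sg K v H = (sgn v H : K) := by
  simp [Top.sg, sgn]

theorem TopTri.exactAt {d n : ℕ} {Γ : Finset (Finset (Fin n))} {σ : Fin n → Finset (Fin d)}
    (h : TopTri Γ σ) (K : Type*) [Field K] (U : Finset (Fin d)) (F : Finset (Fin n)) (r : ℕ)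
    (hr : r < #U) : ExactAt K σ Γ U F r := by
  intro z hz
  obtain ⟨y, hy⟩ := h.exact_sub (k := K) F hr z fun H _ hFH hcard => by
    rw [← hz H hFH hcard]
    exact sum_congr rfl fun v _ => by rw [sg_eq_sgn]
  refine ⟨y, fun G hG hFG hcard => ?_⟩
  rw [hy G hG hFG hcard]
  exact sum_congr rfl fun v _ => by rw [sg_eq_sgn]

/-- T3: in characteristic 3 the local face module of such a triangulation is not generated in
degrees at most 3. -/
theorem not_generated_tri (k : Type*) [Field k] [CharP k 3] {n : ℕ} {Γ : Finset (Finset (Fin n))}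
    {σ : Fin n → Finset (Fin 7)} {v : Fin 4 → Fin 3 → Fin n} (h : TopTri Γ σ)
    (hv : HasR43 Γ σ v) (hdim : ∀ G ∈ Γ, #G ≤ #(car σ G)) :
    ¬ GeneratedLE (genA k σ) σ Γ 3 :=
  not_generated_of k h.down hdim (fun U F r hr => h.exactAt _ U F r hr) hv

end Pool.Agent.Lib.MP_fd6ff4_co.R43
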