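import Pool.Agent.Lib.MP_fd6ff4_co.R43.Alg.Chain

/-!
# R43, part T3: the complexes `E^U`
-/

set_option autoImplicit false

open Finset

namespace Pool.Agent.Lib.MP_fd6ff4_co.R43

variable {K : Type*} [Field K] {d n : ℕ}

/-- The chains of `E^U` on the faces with `s` vertices: chains of `Γ_U` with values of degree 4 over
`K^U` such that the value at `G` is killed by the vectors of the vertices of `G`. -/
structure EE (a : Fin n → Fin d → K) (σ : Fin n → Finset (Fin d)) (Γ : Finset (Finset (Fin n)))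
    (U : Finset (Fin d)) (s : ℕ) (x : Finset (Fin n) → Lam K d) : Prop where
  supp : ∀ G, x G ≠ 0 → G ∈ sub σ Γ U ∧ #G = s
  val : ∀ G, x G ∈ MU K U 4
  kill : ∀ G, ∀ v ∈ G, wd (a v) (x G) = 0

/-- What is used about the triangulation. -/
structure Data (K : Type*) [Field K] (a : Fin n → Fin d → K) (σ : Fin n → Finset (Fin d))
    (Γ : Finset (Finset (Fin n))) : Prop where
  down : ∀ F ∈ Γ, ∀ G, G ⊆ F → G ∈ Γ
  zero : ∀ v i, i ∉ σ v → a v i = 0
  dual : ∀ G ∈ Γ, ∃ ξ : Fin n → Fin d → K, DualFam a G ξ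
  exact : ∀ U F r, r < #U → ExactAt K σ Γ U F r

variable {a : Fin n → Fin d → K} {σ : Fin n → Finset (Fin d)} {Γ : Finset (Finset (Fin n))}
  {U : Finset (Fin d)}

theorem Data.zero_of (h : Data K a σ Γ) {G : Finset (Fin n)} (hG : G ∈ sub σ Γ U) :
    ∀ v ∈ G, ∀ i, i ∉ U → a v i = 0 := by
  intro v hv i hi
  refine h.zero v i fun h1 => hi ?_
  have h2 : car σ G ⊆ U := (mem_filter.mp hG).2
  exact h2 (mem_biUnion.mpr ⟨v, hv, h1⟩)

theorem EE.add {s : ℕ} {x y : Finset (Fin n) → Lam K d} (hx : EE a σ Γ U s x)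
    (hy : EE a σ Γ U s y) : EE a σ Γ U s (x + y) := by
  refine ⟨fun G h => ?_, fun G => ?_, fun G v hv => ?_⟩
  · by_cases h0 : x G = 0
    · refine hy.supp G fun h1 => h ?_
      rw [Pi.add_apply, h0, h1, add_zero]
    · exact hx.supp G h0
  · exact Submodule.add_mem _ (hx.val G) (hy.val G)
  · rw [Pi.add_apply, map_add, hx.kill G v hv, hy.kill G v hv, add_zero]

theorem EE.neg {s : ℕ} {x : Finset (Fin n) → Lam K d} (hx : EE a σ Γ U s x) :
    EE a σ Γ U s (-x) := by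
  refine ⟨fun G h => ?_, fun G => ?_, fun G v hv => ?_⟩
  · refine hx.supp G fun h1 => h ?_
    rw [Pi.neg_apply, h1, neg_zero]
  · exact Submodule.neg_mem _ (hx.val G)
  · rw [Pi.neg_apply, map_neg, hx.kill G v hv, neg_zero]

theorem EE.sub {s : ℕ} {x y : Finset (Fin n) → Lam K d} (hx : EE a σ Γ U s x)
    (hy : EE a σ Γ U s y) : EE a σ Γ U s (x - y) := by
  rw [sub_eq_add_neg]
  exact hx.add hy.neg

theorem EE.zero {s : ℕ} : EE a σ Γ U s (0 : Finset (Fin n) → Lam K d) := by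
  refine ⟨fun G h => absurd rfl h, fun G => Submodule.zero_mem _, fun G v hv => ?_⟩
  rw [Pi.zero_apply, map_zero]

theorem EE.mono {U' : Finset (Fin d)} (h : U ⊆ U') {s : ℕ} {x : Finset (Fin n) → Lam K d}
    (hx : EE a σ Γ U s x) : EE a σ Γ U' s x := by
  refine ⟨fun G h1 => ?_, fun G => MU_mono h (hx.val G), hx.kill⟩
  obtain ⟨h2, h3⟩ := hx.supp G h1
  exact ⟨mem_filter.mpr ⟨(mem_filter.mp h2).1, (mem_filter.mp h2).2.trans h⟩, h3⟩

end Pool.Agent.Lib.MP_fd6ff4_co.R43
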