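import Pool.Agent.Lib.MP_fd6ff4_co.R43.Alg.Exc

/-!
# R43, part T3: exactness of `E^U` for `#U = 4, 5`
-/

set_option autoImplicit false

open Finset

namespace Pool.Agent.Lib.MP_fd6ff4_co.R43

variable {K : Type*} [Field K] {d n : ℕ} {a : Fin n → Fin d → K} {σ : Fin n → Finset (Fin d)}
  {Γ : Finset (Finset (Fin n))} {U : Finset (Fin d)}

/-- the faces of `Γ_U` are closed under subsets -/
theorem mem_sub_of_subset (hdown : ∀ F ∈ Γ, ∀ G, G ⊆ F → G ∈ Γ) {G H : Finset (Fin n)}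
    (hG : G ∈ sub σ Γ U) (hH : H ⊆ G) : H ∈ sub σ Γ U := by
  unfold sub at *
  rw [mem_filter] at *
  refine ⟨hdown _ hG.1 _ hH, Subset.trans ?_ hG.2⟩
  unfold car
  exact biUnion_subset_biUnion_of_subset_left _ hH

/-- a value of degree `#U + 1` is zero -/
theorem wd_eq_zero_of (h : Data K a σ Γ) {k : ℕ} (hU : #U < k + 1) {G : Finset (Fin n)}
    (hG : G ∈ sub σ Γ U) {v : Fin n} (hv : v ∈ G) {x : Lam K d} (hx : x ∈ MU K U k) :
    wd (a v) x = 0 :=
  MU_eq_zero hU (wd_mem (h.zero_of hG v hv) hx)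

/-- the boundary of a chain with values in `MU K U k` -/
theorem bd_mem {k : ℕ} {x : Finset (Fin n) → Lam K d} (hx : ∀ G, x G ∈ MU K U k)
    (H : Finset (Fin n)) : bd x H ∈ MU K U k := by
  unfold bd
  exact Submodule.sum_mem _ fun v _ => Submodule.smul_mem _ _ (hx _)

/-- the boundary of a chain on faces with `s + 1` vertices -/
theorem bd_supp (hdown : ∀ F ∈ Γ, ∀ G, G ⊆ F → G ∈ Γ) {s : ℕ} {x : Finset (Fin n) → Lam K d}
    (hx : ∀ G, x G ≠ 0 → G ∈ sub σ Γ U ∧ #G = s + 1) (H : Finset (Fin n)) (h : bd x H ≠ 0) :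
    H ∈ sub σ Γ U ∧ #H = s := by
  unfold bd at h
  obtain ⟨v, hv, hv'⟩ := exists_ne_zero_of_sum_ne_zero h
  rw [mem_sdiff] at hv
  have h1 := hx (insert v H) (fun h0 => hv' (by rw [h0, smul_zero]))
  refine ⟨mem_sub_of_subset hdown h1.1 (subset_insert _ _), ?_⟩
  have := h1.2
  rw [card_insert_of_notMem hv.2] at this
  omega

/-- PROOF. `exact_lam` with `F = ∅`, `r = 1`, `W = U`, `k = 4`; the values are killed because
`MU K U 5 = 0`. -/
theorem exact4 (h : Data K a σ Γ) (hU : #U = 4) {x : Finset (Fin n) → Lam K d}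
    (hx : EE a σ Γ U 1 x) (hc : ∀ H, bd x H = 0) :
    ∃ y : Finset (Fin n) → Lam K d, EE a σ Γ U 2 y ∧ ∀ H, bd y H = x H := by
  obtain ⟨y, hy1, hy2, hy3⟩ := exact_lam h.down (h.exact U ∅ 1 (by omega)) U 4 x
    (fun G hG _ => hx.supp G hG) hx.val (fun H _ _ => hc H)
  refine ⟨y, ⟨fun G hG => ⟨(hy1 G hG).1, (hy1 G hG).2.2⟩, hy2, fun G v hv => ?_⟩,
    fun H => hy3 H (empty_subset _)⟩
  by_cases h0 : y G = 0
  · rw [h0, map_zero]
  · exact wd_eq_zero_of h (by omega) (hy1 G h0).1 hv (hy2 G)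

/-- PROOF. `x = bd b` (`exact_lam`, `F = ∅`, `r = 2`). For every vertex `v` the function
`G ↦ wd (a v) (b G)` (for `v ∈ G`) satisfies `bd .. H = wd (a v) (x H) = 0` for `v ∈ H`, so
(`F = {v}`, `r = 3`, `MU K U 5`) it is `bd (e v)`, `e v G ∈ MU K U 5` for `#G = 4`. Choose `e G`
with `wd (a v) (e G) = e v G` for all `v ∈ G` (`kos`, `MU K U 6 = 0`), `y = b - bd e`. -/
theorem exact5 (h : Data K a σ Γ) (hU : #U = 5) {x : Finset (Fin n) → Lam K d}
    (hx : EE a σ Γ U 2 x) (hc : ∀ H, bd x H = 0) :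
    ∃ y : Finset (Fin n) → Lam K d, EE a σ Γ U 3 y ∧ ∀ H, bd y H = x H := by
  classical
  obtain ⟨b, hb1, hb2, hb3⟩ := exact_lam h.down (h.exact U ∅ 2 (by omega)) U 4 x
    (fun G hG _ => hx.supp G hG) hx.val (fun H _ _ => hc H)
  -- the relative cycles
  have hz : ∀ v : Fin n, ∃ e : Finset (Fin n) → Lam K d,
      (∀ G, e G ≠ 0 → G ∈ sub σ Γ U ∧ {v} ⊆ G ∧ #G = 3 + 1) ∧ (∀ G, e G ∈ MU K U 5) ∧
      ∀ G, {v} ⊆ G → bd e G = if v ∈ G then wd (a v) (b G) else 0 := by
    intro v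
    refine exact_lam h.down (h.exact U {v} 3 (by omega)) U 5
      (fun G => if v ∈ G then wd (a v) (b G) else 0) ?_ ?_ ?_
    · intro G hG _
      split_ifs at hG with hv
      · have hbG : b G ≠ 0 := fun h0 => hG (by rw [h0, map_zero])
        exact ⟨(hb1 G hbG).1, (hb1 G hbG).2.2⟩
      · exact absurd rfl hG
    · intro G
      split_ifs with hv
      · by_cases hbG : b G = 0
        · rw [hbG, map_zero]
          exact Submodule.zero_mem _
        · exact wd_mem (h.zero_of (hb1 G hbG).1 v hv) (hb2 G)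
      · exact Submodule.zero_mem _
    · intro H hH _
      have hvH : v ∈ H := singleton_subset_iff.1 hH
      have h1 : bd (fun G => if v ∈ G then wd (a v) (b G) else 0) H =
          bd (fun G => wd (a v) (b G)) H := by
        unfold bd
        refine sum_congr rfl fun w _ => ?_
        dsimp only
        rw [if_pos (mem_insert_of_mem hvH)]
      rw [h1, ← wd_bd, hb3 H (empty_subset _)]
      exact hx.kill H v hvH
  choose e he1 he2 he3 using hz
  -- the common preimages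
  have hE : ∀ G : Finset (Fin n), ∃ E ∈ MU K U 4, (∀ v ∈ G, wd (a v) E = e v G) ∧
      (E ≠ 0 → G ∈ sub σ Γ U ∧ #G = 3 + 1) := by
    intro G
    by_cases hG : G ∈ sub σ Γ U ∧ #G = 3 + 1
    · obtain ⟨ξ, hξ⟩ := h.dual G (by
        have := hG.1
        unfold sub at this
        exact (mem_filter.1 this).1)
      obtain ⟨E, hE1, hE2⟩ := kos hξ (h.zero_of hG.1) (fun v => e v G)
        (fun v _ => he2 v G)
        (fun u hu v hv => by
          rw [wd_eq_zero_of h (by omega) hG.1 hu (he2 v G),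
            wd_eq_zero_of h (by omega) hG.1 hv (he2 u G), add_zero])
        (fun v hv => wd_eq_zero_of h (by omega) hG.1 hv (he2 v G))
      exact ⟨E, hE1, hE2, fun _ => hG⟩
    · refine ⟨0, Submodule.zero_mem _, fun v _ => ?_, fun h0 => absurd rfl h0⟩
      rw [map_zero]
      by_contra h0
      have := he1 v G (Ne.symm h0)
      exact hG ⟨this.1, this.2.2⟩
  choose E hE1 hE2 hE3 using hE
  refine ⟨b - bd E, ⟨?_, ?_, ?_⟩, ?_⟩
  · intro G hG
    by_cases hbG : b G = 0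
    · refine bd_supp h.down hE3 G fun h0 => hG ?_
      rw [Pi.sub_apply, hbG, h0, sub_zero]
    · exact ⟨(hb1 G hbG).1, (hb1 G hbG).2.2⟩
  · intro G
    exact Submodule.sub_mem _ (hb2 G) (bd_mem hE1 G)
  · intro G v hv
    rw [Pi.sub_apply, map_sub, wd_bd]
    have h1 : bd (fun G => wd (a v) (E G)) G = bd (e v) G := by
      unfold bd
      refine sum_congr rfl fun w _ => ?_
      dsimp only
      rw [hE2 _ v (mem_insert_of_mem hv)]
    rw [h1, he3 v G (singleton_subset_iff.2 hv), if_pos hv, sub_self]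
  · intro H
    rw [bd_sub, hb3 H (empty_subset _), bd_bd, sub_zero]

end Pool.Agent.Lib.MP_fd6ff4_co.R43
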