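import Pool.Agent.Lib.MP_fd6ff4_co.R43.Alg.Exc

/-!
# R43, part T3: exactness of `E^U` for `#U = 6`
-/

set_option autoImplicit false

open Finset

namespace Pool.Agent.Lib.MP_fd6ff4_co.R43

variable {K : Type*} [Field K] {d n : ℕ} {a : Fin n → Fin d → K} {σ : Fin n → Finset (Fin d)}
  {Γ : Finset (Finset (Fin n))} {U : Finset (Fin d)}

private theorem bd_congr {x y : Finset (Fin n) → Lam K d} {H : Finset (Fin n)}
    (h : ∀ w, w ∉ H → x (insert w H) = y (insert w H)) : bd x H = bd y H := by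
  rw [bd, bd]
  refine sum_congr rfl fun w hw => ?_
  rw [h w (by simpa using hw)]

private theorem bd_mem {W : Finset (Fin d)} {k : ℕ} {x : Finset (Fin n) → Lam K d}
    (hx : ∀ G, x G ∈ MU K W k) (H : Finset (Fin n)) : bd x H ∈ MU K W k := by
  rw [bd]
  exact Submodule.sum_mem _ fun w _ => Submodule.smul_mem _ _ (hx _)

private theorem bd_ne_zero {x : Finset (Fin n) → Lam K d} {H : Finset (Fin n)}
    (h : bd x H ≠ 0) : ∃ w, w ∉ H ∧ x (insert w H) ≠ 0 := by
  rw [bd] at h
  obtain ⟨w, hw, h1⟩ := exists_ne_zero_of_sum_ne_zero h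
  refine ⟨w, by simpa using hw, fun h2 => h1 ?_⟩
  rw [h2, smul_zero]

private theorem sub_down6 (h : Data K a σ Γ) {F G : Finset (Fin n)} (hF : F ∈ sub σ Γ U)
    (hG : G ⊆ F) : G ∈ sub σ Γ U := by
  rw [sub, mem_filter] at hF ⊢
  exact ⟨h.down F hF.1 G hG, (biUnion_subset_biUnion_of_subset_left _ hG).trans hF.2⟩

/-- PROOF. `x = bd b` (`F = ∅`, `r = 3`), `wd (a v) (b G) = bd (e v) G` for `v ∈ G`
(`F = {v}`, `r = 4`, `MU K U 5`), `e v G`, `#G = 5`. For `u, v ∈ G` put
`κ u v G = wd (a u) (e v G) + wd (a v) (e u G)` if `u < v` and `κ v v G = wd (a v) (e v G)`, in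
`MU K U 6`: `bd (κ u v) H = 0` for `u, v ∈ H`, so `κ u v G = bd (λ u v) G` for `u, v ∈ G`
(`F = {u, v}`, `r = 5`). `polar` for the `G` with 6 vertices: `f v G`; `e' v = e v - bd (f v)` (at the
`G ∋ v`) still satisfies `bd (e' v) G = wd (a v) (b G)` (`bd_bd`) and now
`wd (a u) (e' v G) + wd (a v) (e' u G) = 0`, `wd (a v) (e' v G) = 0`. `kos`: `e G` with
`wd (a v) (e G) = e' v G` for `v ∈ G`; `y = b - bd e`. -/
theorem exact6 (h : Data K a σ Γ) (hU : #U = 6) {x : Finset (Fin n) → Lam K d}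
    (hx : EE a σ Γ U 3 x) (hc : ∀ H, bd x H = 0) :
    ∃ y : Finset (Fin n) → Lam K d, EE a σ Γ U 4 y ∧ ∀ H, bd y H = x H := by
  classical
  -- step 1
  obtain ⟨b, hb1, hb2, hb3⟩ := exact_lam h.down (h.exact U ∅ 3 (by omega)) U 4 x
    (fun G hG _ => hx.supp G hG) hx.val (fun H _ _ => hc H)
  have hbx : ∀ G, bd b G = x G := fun G => hb3 G (empty_subset G)
  -- step 2
  have step2 : ∀ v : Fin n, ∃ e : Finset (Fin n) → Lam K d,
      (∀ G, e G ≠ 0 → G ∈ sub σ Γ U ∧ {v} ⊆ G ∧ #G = 4 + 1) ∧ (∀ G, e G ∈ MU K U 5) ∧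
      ∀ G, {v} ⊆ G → bd e G = if v ∈ G then wd (a v) (b G) else 0 := by
    intro v
    refine exact_lam h.down (h.exact U {v} 4 (by omega)) U 5
      (fun G => if v ∈ G then wd (a v) (b G) else 0) (fun G hG _ => ?_) (fun G => ?_)
      fun H hH _ => ?_
    · beta_reduce at hG
      split_ifs at hG with h1
      · have h2 := hb1 G fun h3 => hG (by rw [h3, map_zero])
        exact ⟨h2.1, h2.2.2⟩
      · exact absurd rfl hG
    · beta_reduce
      split_ifs with h1
      · by_cases h2 : b G = 0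
        · rw [h2, map_zero]
          exact Submodule.zero_mem _
        · exact wd_mem (h.zero_of (hb1 G h2).1 v h1) (hb2 G)
      · exact Submodule.zero_mem _
    · rw [singleton_subset_iff] at hH
      rw [bd_congr (y := fun G => wd (a v) (b G)) fun w _ => by
        beta_reduce
        rw [if_pos (mem_insert_of_mem hH)], ← wd_bd, hbx]
      exact hx.kill H v hH
  choose e he1 he2 he3 using step2
  have he4 : ∀ v G, v ∈ G → bd (e v) G = wd (a v) (b G) := by
    intro v G hv
    rw [he3 v G (singleton_subset_iff.mpr hv), if_pos hv]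
  -- step 3
  let κ : Fin n → Fin n → Finset (Fin n) → Lam K d := fun u v G =>
    if u = v then wd (a v) (e v G) else wd (a u) (e v G) + wd (a v) (e u G)
  have hκb : ∀ u v H, u ∈ H → v ∈ H → bd (κ u v) H = 0 := by
    intro u v H hu hv
    by_cases huv : u = v
    · subst huv
      rw [bd_congr (y := fun G => wd (a u) (e u G)) fun w _ => by
        simp only [κ, if_true], ← wd_bd, he4 u H hu]
      exact wd_self _ _
    · rw [bd_congr (y := (fun G => wd (a u) (e v G)) + fun G => wd (a v) (e u G)) fun w _ => by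
        simp only [κ, if_neg huv, Pi.add_apply], bd_add, ← wd_bd, ← wd_bd, he4 u H hu, he4 v H hv,
        wd_wd (a u) (a v), neg_add_cancel]
  have step3 : ∀ u v : Fin n, ∃ l : Finset (Fin n) → Lam K d,
      (∀ G, l G ≠ 0 → G ∈ sub σ Γ U ∧ {u, v} ⊆ G ∧ #G = 5 + 1) ∧ (∀ G, l G ∈ MU K U 6) ∧
      ∀ G, {u, v} ⊆ G → bd l G = if u ∈ G ∧ v ∈ G then κ u v G else 0 := by
    intro u v
    refine exact_lam h.down (h.exact U {u, v} 5 (by omega)) U 6
      (fun G => if u ∈ G ∧ v ∈ G then κ u v G else 0) (fun G hG _ => ?_) (fun G => ?_)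
      fun H hH _ => ?_
    · beta_reduce at hG
      split_ifs at hG with h1
      · simp only [κ] at hG
        split_ifs at hG with h2
        · have h3 := he1 v G fun h3 => hG (by rw [h3, map_zero])
          exact ⟨h3.1, h3.2.2⟩
        · by_cases h4 : e v G = 0
          · have h3 := he1 u G fun h3 => hG (by rw [h3, h4, map_zero, map_zero, add_zero])
            exact ⟨h3.1, h3.2.2⟩
          · have h3 := he1 v G h4
            exact ⟨h3.1, h3.2.2⟩
      · exact absurd rfl hG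
    · have key : ∀ u v, u ∈ G → wd (a u) (e v G) ∈ MU K U 6 := by
        intro u v hu
        by_cases h2 : e v G = 0
        · rw [h2, map_zero]
          exact Submodule.zero_mem _
        · exact wd_mem (h.zero_of (he1 v G h2).1 u hu) (he2 v G)
      beta_reduce
      split_ifs with h1
      · simp only [κ]
        split_ifs with h2
        · exact key v v h1.2
        · exact Submodule.add_mem _ (key u v h1.1) (key v u h1.2)
      · exact Submodule.zero_mem _
    · have hu : u ∈ H := hH (by simp)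
      have hv : v ∈ H := hH (by simp)
      rw [bd_congr (y := κ u v) fun w _ => by
        beta_reduce
        rw [if_pos ⟨mem_insert_of_mem hu, mem_insert_of_mem hv⟩]]
      exact hκb u v H hu hv
  choose l hl1 hl2 hl3 using step3
  have hl4 : ∀ u v G, u ∈ G → v ∈ G → bd (l u v) G = κ u v G := by
    intro u v G hu hv
    rw [hl3 u v G (by
      intro w hw
      rcases mem_insert.mp hw with rfl | hw
      · exact hu
      · rw [mem_singleton.mp hw]
        exact hv), if_pos ⟨hu, hv⟩]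
  -- step 4
  have step4 : ∀ G : Finset (Fin n), ∃ f : Fin n → Lam K d, G ∈ sub σ Γ U →
      (∀ v ∈ G, f v ∈ MU K U 5) ∧
      (∀ u ∈ G, ∀ v ∈ G, u < v → wd (a u) (f v) + wd (a v) (f u) = l u v G) ∧
      ∀ v ∈ G, wd (a v) (f v) = l v v G := by
    intro G
    by_cases hG : G ∈ sub σ Γ U
    · obtain ⟨ξ, hξ⟩ := h.dual G (mem_filter.mp hG).1
      obtain ⟨f, h1, h2, h3⟩ := polar hξ (by rw [hU]) (h.zero_of hG) (fun u v => l u v G)
        (fun u _ v _ => hl2 u v G)
      exact ⟨f, fun _ => ⟨h1, h2, h3⟩⟩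
    · exact ⟨0, fun h1 => absurd h1 hG⟩
  choose f₀ hf₀ using step4
  let f : Fin n → Finset (Fin n) → Lam K d := fun v G =>
    if G ∈ sub σ Γ U ∧ #G = 6 ∧ v ∈ G then f₀ G v else 0
  have hf1 : ∀ v G, f v G ≠ 0 → G ∈ sub σ Γ U ∧ #G = 6 ∧ v ∈ G := by
    intro v G hG
    by_contra h1
    exact hG (if_neg h1)
  have hf2 : ∀ v G, f v G ∈ MU K U 5 := by
    intro v G
    simp only [f]
    split_ifs with h1
    · exact (hf₀ G h1.1).1 v h1.2.2
    · exact Submodule.zero_mem _
  have hf3 : ∀ u v G, u ∈ G → v ∈ G → u < v → wd (a u) (f v G) + wd (a v) (f u G) = l u v G := by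
    intro u v G hu hv huv
    by_cases h1 : G ∈ sub σ Γ U ∧ #G = 6
    · simp only [f]
      rw [if_pos ⟨h1.1, h1.2, hv⟩, if_pos ⟨h1.1, h1.2, hu⟩]
      exact (hf₀ G h1.1).2.1 u hu v hv huv
    · have h2 : l u v G = 0 := by
        by_contra h3
        have h4 := hl1 u v G h3
        exact h1 ⟨h4.1, h4.2.2⟩
      simp only [f]
      rw [if_neg fun h3 => h1 ⟨h3.1, h3.2.1⟩, if_neg fun h3 => h1 ⟨h3.1, h3.2.1⟩, map_zero,
        map_zero, add_zero, h2]
  have hf4 : ∀ v G, v ∈ G → wd (a v) (f v G) = l v v G := by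
    intro v G hv
    by_cases h1 : G ∈ sub σ Γ U ∧ #G = 6
    · simp only [f]
      rw [if_pos ⟨h1.1, h1.2, hv⟩]
      exact (hf₀ G h1.1).2.2 v hv
    · have h2 : l v v G = 0 := by
        by_contra h3
        have h4 := hl1 v v G h3
        exact h1 ⟨h4.1, h4.2.2⟩
      simp only [f]
      rw [if_neg fun h3 => h1 ⟨h3.1, h3.2.1⟩, map_zero, h2]
  -- step 5
  let e' : Fin n → Finset (Fin n) → Lam K d := fun v => e v - bd (f v)
  have he'0 : ∀ v G, e' v G = e v G - bd (f v) G := fun v G => rfl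
  have he'1 : ∀ v G, e' v G ≠ 0 → G ∈ sub σ Γ U ∧ #G = 5 := by
    intro v G hG
    by_cases h1 : e v G = 0
    · rw [he'0, h1, zero_sub, neg_ne_zero] at hG
      obtain ⟨w, hw, h2⟩ := bd_ne_zero hG
      have h3 := hf1 v _ h2
      rw [card_insert_of_notMem hw] at h3
      exact ⟨sub_down6 h h3.1 (subset_insert w G), by omega⟩
    · have h3 := he1 v G h1
      exact ⟨h3.1, h3.2.2⟩
  have he'2 : ∀ v G, e' v G ∈ MU K U 5 := fun v G =>
    Submodule.sub_mem _ (he2 v G) (bd_mem (hf2 v) G)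
  have he'3 : ∀ v G, v ∈ G → bd (e' v) G = wd (a v) (b G) := by
    intro v G hv
    rw [show e' v = e v - bd (f v) from rfl, bd_sub, bd_bd, sub_zero, he4 v G hv]
  have he'4 : ∀ v G, v ∈ G → wd (a v) (e' v G) = 0 := by
    intro v G hv
    rw [he'0, map_sub, wd_bd, bd_congr (y := l v v) fun w _ =>
      hf4 v _ (mem_insert_of_mem hv), hl4 v v G hv hv]
    simp only [κ, if_true, sub_self]
  have he'5 : ∀ u v G, u ∈ G → v ∈ G → u < v →
      wd (a u) (e' v G) + wd (a v) (e' u G) = 0 := by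
    intro u v G hu hv huv
    have h1 : bd (fun G => wd (a u) (f v G)) G + bd (fun G => wd (a v) (f u G)) G =
        κ u v G := by
      rw [← bd_add, bd_congr (y := l u v) fun w _ => by
        rw [Pi.add_apply]
        exact hf3 u v _ (mem_insert_of_mem hu) (mem_insert_of_mem hv) huv, hl4 u v G hu hv]
    rw [he'0, he'0, map_sub, map_sub, wd_bd, wd_bd]
    have h2 : κ u v G = wd (a u) (e v G) + wd (a v) (e u G) := by
      simp only [κ, if_neg huv.ne]
    rw [h2] at h1
    have h3 : wd (a u) (e v G) - bd (fun G => wd (a u) (f v G)) G +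
        (wd (a v) (e u G) - bd (fun G => wd (a v) (f u G)) G) =
        (wd (a u) (e v G) + wd (a v) (e u G)) -
        (bd (fun G => wd (a u) (f v G)) G + bd (fun G => wd (a v) (f u G)) G) := by abel
    rw [h3, h1, sub_self]
  -- step 6
  have step6 : ∀ G : Finset (Fin n), ∃ y : Lam K d, y ∈ MU K U 4 ∧
      (¬ (G ∈ sub σ Γ U ∧ #G = 5) → y = 0) ∧ ∀ v ∈ G, wd (a v) y = e' v G := by
    intro G
    by_cases hG : G ∈ sub σ Γ U ∧ #G = 5
    · obtain ⟨ξ, hξ⟩ := h.dual G (mem_filter.mp hG.1).1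
      obtain ⟨y, h1, h2⟩ := kos hξ (h.zero_of hG.1) (fun v => e' v G) (fun v _ => he'2 v G)
        (fun u hu v hv => by
          rcases lt_trichotomy u v with huv | huv | huv
          · exact he'5 u v G hu hv huv
          · subst huv
            rw [he'4 u G hu, add_zero]
          · rw [add_comm]
            exact he'5 v u G hv hu huv) (fun v hv => he'4 v G hv)
      exact ⟨y, h1, fun h3 => absurd hG h3, h2⟩
    · refine ⟨0, Submodule.zero_mem _, fun _ => rfl, fun v _ => ?_⟩
      rw [map_zero]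
      by_contra h1
      exact hG (he'1 v G (Ne.symm h1))
  choose g hg1 hg2 hg3 using step6
  refine ⟨b - bd g, ⟨fun G hG => ?_, fun G => ?_, fun G v hv => ?_⟩, fun H => ?_⟩
  · by_cases h1 : b G = 0
    · rw [Pi.sub_apply, h1, zero_sub, neg_ne_zero] at hG
      obtain ⟨w, hw, h2⟩ := bd_ne_zero hG
      have h3 : insert w G ∈ sub σ Γ U ∧ #(insert w G) = 5 := by
        by_contra h4
        exact h2 (hg2 _ h4)
      rw [card_insert_of_notMem hw] at h3
      exact ⟨sub_down6 h h3.1 (subset_insert w G), by omega⟩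
    · have h2 := hb1 G h1
      exact ⟨h2.1, h2.2.2⟩
  · exact Submodule.sub_mem _ (hb2 G) (bd_mem hg1 G)
  · rw [Pi.sub_apply, map_sub, wd_bd, bd_congr (y := e' v) fun w _ =>
      hg3 _ v (mem_insert_of_mem hv), he'3 v G hv, sub_self]
  · rw [bd_sub, bd_bd, sub_zero, hbx]

end Pool.Agent.Lib.MP_fd6ff4_co.R43
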