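import Mathlib

/-!
# R43, part T3: the exterior algebra in coordinates

`Lam K d` is the exterior algebra of `K^d`: an element is the function `P ↦` coefficient of `e_P`,
`P ⊆ Fin d`. `wd a` is the multiplication with the vector `a` from the left, `ct ξ` the contraction
with the functional `ξ`, `MU U k` the space of the elements of degree `k` over `K^U`, `wg a G x` the
product of the `a v`, `v ∈ G` (in increasing order), with `x`.
-/

set_option autoImplicit false

open Finset

namespace Pool.Agent.Lib.MP_fd6ff4_co.R43

variable {K : Type*} [Field K] {d n m : ℕ}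

/-- the exterior algebra of `K^d`, in coordinates -/
abbrev Lam (K : Type*) (d : ℕ) : Type _ := Finset (Fin d) → K

/-- `-1` to the number of the elements of `P` which are smaller than `i` -/
def sgn (i : Fin m) (P : Finset (Fin m)) : ℤ := (-1) ^ #{j ∈ P | j < i}

/-- multiplication with the vector `a` -/
def wd (a : Fin d → K) : Lam K d →ₗ[K] Lam K d where
  toFun x P := ∑ i ∈ P, (sgn i P : K) * a i * x (P.erase i)
  map_add' x y := by
    funext P
    simp only [Pi.add_apply, mul_add, sum_add_distrib]
  map_smul' c x := by
    funext P
    simp only [Pi.smul_apply, smul_eq_mul, mul_sum, RingHom.id_apply]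
    exact sum_congr rfl fun i _ => by ring

/-- contraction with the functional `ξ` -/
def ct (ξ : Fin d → K) : Lam K d →ₗ[K] Lam K d where
  toFun x P := ∑ i ∈ univ \ P, (sgn i P : K) * ξ i * x (insert i P)
  map_add' x y := by
    funext P
    simp only [Pi.add_apply, mul_add, sum_add_distrib]
  map_smul' c x := by
    funext P
    simp only [Pi.smul_apply, smul_eq_mul, mul_sum, RingHom.id_apply]
    exact sum_congr rfl fun i _ => by ring

/-- the pairing -/
def pr (ξ a : Fin d → K) : K := ∑ i, ξ i * a i

/-- the elements of degree `k` over `K^U` -/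
def MU (K : Type*) [Field K] (U : Finset (Fin d)) (k : ℕ) : Submodule K (Lam K d) where
  carrier := {x | ∀ P, x P ≠ 0 → P ⊆ U ∧ #P = k}
  zero_mem' := fun P h => absurd rfl h
  add_mem' := by
    intro x y hx hy P h
    by_cases h0 : x P = 0
    · refine hy P fun h1 => h ?_
      rw [Pi.add_apply, h0, h1, add_zero]
    · exact hx P h0
  smul_mem' := by
    intro c x hx P h
    exact hx P fun h0 => h (by rw [Pi.smul_apply, h0, smul_zero])

/-- the unit -/
def one1 (K : Type*) [Field K] (d : ℕ) : Lam K d := fun P => if P = ∅ then 1 else 0

/-- the product of the vectors `a v`, `v ∈ G`, in increasing order, with `x` -/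
def wg (a : Fin n → Fin d → K) (G : Finset (Fin n)) (x : Lam K d) : Lam K d :=
  (G.sort (· ≤ ·)).foldr (fun v y => wd (a v) y) x

/-- the product of the vectors `a v`, `v ∈ G`, in increasing order -/
def av (a : Fin n → Fin d → K) (G : Finset (Fin n)) : Lam K d := wg a G (one1 K d)

end Pool.Agent.Lib.MP_fd6ff4_co.R43
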