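import Pool.Agent.Lib.MP_fd6ff4_co.R43.Alg.Ext

/-!
# R43, part T3: signs and relations
-/

set_option autoImplicit false

open Finset

namespace Pool.Agent.Lib.MP_fd6ff4_co.R43

variable {K : Type*} [Field K] {d n m : ℕ}

/-! ### signs -/

theorem sgn_mul_self (i : Fin m) (P : Finset (Fin m)) : sgn i P * sgn i P = 1 := by
  rw [sgn, ← mul_pow]
  simp

theorem sgn_insert_self (i : Fin m) (P : Finset (Fin m)) : sgn i (insert i P) = sgn i P := by
  rw [sgn, sgn, filter_insert, if_neg (lt_irrefl i)]

private def extAe (j i : Fin m) : ℤ := if j < i then -1 else 1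

private theorem extAe_comm {i j : Fin m} (h : i ≠ j) : extAe j i = -extAe i j := by
  unfold extAe
  rcases lt_or_gt_of_ne h with h1 | h1
  · rw [if_neg (not_lt.2 h1.le), if_pos h1, neg_neg]
  · rw [if_pos h1, if_neg (not_lt.2 h1.le)]

private theorem extAe_mul {i j : Fin m} (h : i ≠ j) : extAe j i * extAe i j = -1 := by
  rw [extAe_comm h]
  unfold extAe
  split_ifs <;> norm_num

private theorem extA_insert {i j : Fin m} {P : Finset (Fin m)} (hj : j ∉ P) :
    sgn i (insert j P) = extAe j i * sgn i P := by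
  rw [sgn, sgn, filter_insert, extAe]
  split_ifs with h
  · have h1 : j ∉ P.filter fun l => l < i := fun h2 => hj (mem_filter.1 h2).1
    rw [card_insert_of_notMem h1, pow_succ]
    ring
  · rw [one_mul]

private theorem extA_erase {i j : Fin m} {P : Finset (Fin m)} (hj : j ∈ P) :
    sgn i P = extAe j i * sgn i (P.erase j) := by
  conv_lhs => rw [← insert_erase hj]
  exact extA_insert (notMem_erase j P)

/-- for `i`, `j` different, both in `P` -/
theorem sgn_erase_erase {i j : Fin m} {P : Finset (Fin m)} (hi : i ∈ P) (hj : j ∈ P) (h : i ≠ j) :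
    sgn i P * sgn j (P.erase i) = -(sgn j P * sgn i (P.erase j)) := by
  rw [extA_erase (i := i) hj, extA_erase (i := j) hi, extAe_comm h]
  ring

/-- for `i`, `j` different, both not in `P` -/
theorem sgn_insert_insert {i j : Fin m} {P : Finset (Fin m)} (hi : i ∉ P) (hj : j ∉ P)
    (h : i ≠ j) : sgn i P * sgn j (insert i P) = -(sgn j P * sgn i (insert j P)) := by
  rw [extA_insert hi, extA_insert hj, extAe_comm h]
  ring

/-- for `i ∉ P`, `j ∈ P` -/
theorem sgn_insert_erase {i j : Fin m} {P : Finset (Fin m)} (hi : i ∉ P) (hj : j ∈ P) :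
    sgn i P * sgn j (insert i P) = -(sgn j P * sgn i (P.erase j)) := by
  have h : i ≠ j := by
    rintro rfl
    exact hi hj
  rw [extA_insert hi, extA_erase (i := i) hj]
  linear_combination (sgn i (P.erase j) * sgn j P) * extAe_mul h

/-! ### relations -/

private theorem extA_ww (a b : Fin d → K) (x : Lam K d) (P : Finset (Fin d)) :
    wd a (wd b x) P = ∑ i ∈ P, ∑ j ∈ P.erase i,
      (sgn i P : K) * (sgn j (P.erase i) : K) * (a i * b j * x ((P.erase i).erase j)) := by
  show ∑ i ∈ P, (sgn i P : K) * a i * (∑ j ∈ P.erase i, (sgn j (P.erase i) : K) * b j *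
    x ((P.erase i).erase j)) = _
  refine sum_congr rfl fun i _ => ?_
  rw [mul_sum]
  exact sum_congr rfl fun j _ => by ring

private theorem extA_cast {i j : Fin d} {P : Finset (Fin d)} (hi : i ∈ P) (hj : j ∈ P)
    (h : i ≠ j) : (sgn i P : K) * (sgn j (P.erase i) : K) =
      -((sgn j P : K) * (sgn i (P.erase j) : K)) := by
  have h1 := congrArg (fun z : ℤ => (z : K)) (sgn_erase_erase hi hj h)
  push_cast at h1
  exact h1

theorem wd_wd (a b : Fin d → K) (x : Lam K d) : wd a (wd b x) = -wd b (wd a x) := by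
  funext P
  rw [Pi.neg_apply, extA_ww, extA_ww, ← sum_neg_distrib]
  rw [sum_comm' (s := P) (t := fun i => P.erase i) (t' := P) (s' := fun j => P.erase j)]
  · refine sum_congr rfl fun j hj => ?_
    rw [← sum_neg_distrib]
    refine sum_congr rfl fun i hi => ?_
    rw [mem_erase] at hi
    rw [extA_cast hi.2 hj hi.1, erase_right_comm]
    ring
  · intro i j
    rw [mem_erase, mem_erase]
    constructor
    · rintro ⟨h1, h2, h3⟩
      exact ⟨⟨h2.symm, h1⟩, h3⟩
    · rintro ⟨⟨h1, h2⟩, h3⟩
      exact ⟨h2, h1.symm, h3⟩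

theorem wd_self (a : Fin d → K) (x : Lam K d) : wd a (wd a x) = 0 := by
  funext P
  rw [extA_ww, Pi.zero_apply, sum_sigma']
  refine sum_involution (fun p _ => ⟨p.2, p.1⟩) ?_ ?_ ?_ ?_
  · rintro ⟨i, j⟩ h
    rw [mem_sigma, mem_erase] at h
    obtain ⟨h1, h2, h3⟩ := h
    dsimp only at h1 h2 h3 ⊢
    rw [extA_cast h1 h3 h2.symm, erase_right_comm]
    ring
  · rintro ⟨i, j⟩ h _ h0
    rw [mem_sigma, mem_erase] at h
    obtain ⟨h1, h2, h3⟩ := h
    exact h2 (congrArg Sigma.fst h0)
  · rintro ⟨i, j⟩ h
    rw [mem_sigma, mem_erase] at h ⊢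
    obtain ⟨h1, h2, h3⟩ := h
    exact ⟨h3, h2.symm, h1⟩
  · rintro ⟨i, j⟩ h
    rfl

theorem ct_wd (ξ a : Fin d → K) (x : Lam K d) :
    ct ξ (wd a x) = pr ξ a • x - wd a (ct ξ x) := by
  funext P
  rw [Pi.sub_apply, Pi.smul_apply, smul_eq_mul, eq_sub_iff_add_eq]
  have e1 : ct ξ (wd a x) P = ∑ i ∈ univ \ P, (ξ i * a i * x P +
      ∑ j ∈ P, (sgn i P : K) * (sgn j (insert i P) : K) *
        (ξ i * a j * x (insert i (P.erase j)))) := by
    show ∑ i ∈ univ \ P, (sgn i P : K) * ξ i * (∑ j ∈ insert i P, (sgn j (insert i P) : K) * a j *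
      x ((insert i P).erase j)) = _
    refine sum_congr rfl fun i hi => ?_
    have hi' : i ∉ P := (mem_sdiff.1 hi).2
    rw [sum_insert hi', mul_add, erase_insert hi', sgn_insert_self, mul_sum]
    congr 1
    · have h1 := congrArg (fun z : ℤ => (z : K)) (sgn_mul_self i P)
      push_cast at h1
      linear_combination (ξ i * a i * x P) * h1
    · refine sum_congr rfl fun j hj => ?_
      have hij : i ≠ j := by
        rintro rfl
        exact hi' hj
      rw [erase_insert_of_ne hij]
      ring
  have e2 : wd a (ct ξ x) P = ∑ j ∈ P, (ξ j * a j * x P +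
      ∑ i ∈ univ \ P, (sgn j P : K) * (sgn i (P.erase j) : K) *
        (ξ i * a j * x (insert i (P.erase j)))) := by
    show ∑ j ∈ P, (sgn j P : K) * a j * (∑ i ∈ univ \ P.erase j, (sgn i (P.erase j) : K) * ξ i *
      x (insert i (P.erase j))) = _
    refine sum_congr rfl fun j hj => ?_
    have hu : univ \ P.erase j = insert j (univ \ P) := by
      ext l
      simp only [mem_sdiff, mem_univ, true_and, mem_erase, mem_insert, not_and]
      constructor
      · intro h
        by_cases h1 : l = j
        · exact Or.inl h1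
        · exact Or.inr (h h1)
      · rintro (h | h) h1
        · exact absurd h h1
        · exact h
    have hj' : j ∉ univ \ P := fun h => (mem_sdiff.1 h).2 hj
    rw [hu, sum_insert hj', mul_add, insert_erase hj, mul_sum]
    congr 1
    · have h0 : sgn j P = sgn j (P.erase j) := by
        conv_lhs => rw [← insert_erase hj]
        exact sgn_insert_self j _
      rw [← h0]
      have h1 := congrArg (fun z : ℤ => (z : K)) (sgn_mul_self j P)
      push_cast at h1
      linear_combination (ξ j * a j * x P) * h1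
    · exact sum_congr rfl fun i _ => by ring
  rw [e1, e2, sum_add_distrib, sum_add_distrib]
  have e3 : ∑ i ∈ univ \ P, ∑ j ∈ P, (sgn i P : K) * (sgn j (insert i P) : K) *
        (ξ i * a j * x (insert i (P.erase j))) =
      -∑ j ∈ P, ∑ i ∈ univ \ P, (sgn j P : K) * (sgn i (P.erase j) : K) *
        (ξ i * a j * x (insert i (P.erase j))) := by
    rw [sum_comm, ← sum_neg_distrib]
    refine sum_congr rfl fun j hj => ?_
    rw [← sum_neg_distrib]
    refine sum_congr rfl fun i hi => ?_
    have h1 := congrArg (fun z : ℤ => (z : K)) (sgn_insert_erase (mem_sdiff.1 hi).2 hj)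
    push_cast at h1
    linear_combination (ξ i * a j * x (insert i (P.erase j))) * h1
  rw [e3, pr, ← sum_sdiff (subset_univ P), add_mul, sum_mul, sum_mul]
  ring

theorem wd_add (a b : Fin d → K) (x : Lam K d) : wd (a + b) x = wd a x + wd b x := by
  funext P
  show ∑ i ∈ P, (sgn i P : K) * (a + b) i * x (P.erase i) =
    ∑ i ∈ P, (sgn i P : K) * a i * x (P.erase i) + ∑ i ∈ P, (sgn i P : K) * b i * x (P.erase i)
  rw [← sum_add_distrib]
  exact sum_congr rfl fun i _ => by rw [Pi.add_apply]; ring

theorem wd_smul (c : K) (a : Fin d → K) (x : Lam K d) : wd (c • a) x = c • wd a x := by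
  funext P
  show ∑ i ∈ P, (sgn i P : K) * (c • a) i * x (P.erase i) =
    c * ∑ i ∈ P, (sgn i P : K) * a i * x (P.erase i)
  rw [mul_sum]
  exact sum_congr rfl fun i _ => by rw [Pi.smul_apply, smul_eq_mul]; ring

theorem wd_zero (x : Lam K d) : wd (0 : Fin d → K) x = 0 := by
  have h := wd_smul (0 : K) (0 : Fin d → K) x
  rw [zero_smul, zero_smul] at h
  exact h

theorem wd_sum {ι : Type*} (s : Finset ι) (f : ι → Fin d → K) (x : Lam K d) :
    wd (∑ i ∈ s, f i) x = ∑ i ∈ s, wd (f i) x := by
  classical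
  induction s using Finset.induction_on with
  | empty => rw [sum_empty, sum_empty, wd_zero]
  | insert i s hi ih => rw [sum_insert hi, sum_insert hi, wd_add, ih]

end Pool.Agent.Lib.MP_fd6ff4_co.R43
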