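import Pool.Agent.Lib.MP_fd6ff4_co.R43.Alg.ExtA

/-!
# R43, part T3: degrees and products
-/

set_option autoImplicit false

open Finset

namespace Pool.Agent.Lib.MP_fd6ff4_co.R43

variable {K : Type*} [Field K] {d n : ℕ}

/-! ### degrees -/

theorem wd_mem {U : Finset (Fin d)} {k : ℕ} {a : Fin d → K} (ha : ∀ i, i ∉ U → a i = 0)
    {x : Lam K d} (hx : x ∈ MU K U k) : wd a x ∈ MU K U (k + 1) := by
  intro P hP
  have hP' : ∑ i ∈ P, (sgn i P : K) * a i * x (P.erase i) ≠ 0 := hP
  obtain ⟨i, hi, h⟩ := Finset.exists_ne_zero_of_sum_ne_zero hP'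
  have h1 : a i ≠ 0 := fun h0 => h (by rw [h0, mul_zero, zero_mul])
  have h2 : x (P.erase i) ≠ 0 := fun h0 => h (by rw [h0, mul_zero])
  have hiU : i ∈ U := by
    by_contra hc
    exact h1 (ha i hc)
  obtain ⟨h3, h4⟩ := hx _ h2
  refine ⟨fun j hj => ?_, ?_⟩
  · by_cases e : j = i
    · rw [e]
      exact hiU
    · exact h3 (Finset.mem_erase.2 ⟨e, hj⟩)
  · rw [← h4, Finset.card_erase_add_one hi]

theorem ct_mem {U : Finset (Fin d)} {k : ℕ} (ξ : Fin d → K) {x : Lam K d}
    (hx : x ∈ MU K U (k + 1)) : ct ξ x ∈ MU K U k := by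
  intro P hP
  have hP' : ∑ i ∈ univ \ P, (sgn i P : K) * ξ i * x (insert i P) ≠ 0 := hP
  obtain ⟨i, hi, h⟩ := Finset.exists_ne_zero_of_sum_ne_zero hP'
  have h2 : x (insert i P) ≠ 0 := fun h0 => h (by rw [h0, mul_zero])
  obtain ⟨h3, h4⟩ := hx _ h2
  refine ⟨(Finset.subset_insert i P).trans h3, ?_⟩
  rw [Finset.card_insert_of_notMem (Finset.mem_sdiff.1 hi).2] at h4
  omega

theorem MU_eq_zero {U : Finset (Fin d)} {k : ℕ} (h : #U < k) {x : Lam K d}
    (hx : x ∈ MU K U k) : x = 0 := by
  funext P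
  by_contra hP
  obtain ⟨h1, h2⟩ := hx P hP
  have := Finset.card_le_card h1
  omega

theorem MU_mono {U U' : Finset (Fin d)} (h : U ⊆ U') {k : ℕ} {x : Lam K d}
    (hx : x ∈ MU K U k) : x ∈ MU K U' k :=
  fun P hP => ⟨(hx P hP).1.trans h, (hx P hP).2⟩

theorem MU_inter {U U' : Finset (Fin d)} {k : ℕ} {x : Lam K d} (hx : x ∈ MU K U k)
    (hx' : x ∈ MU K U' k) : x ∈ MU K (U ∩ U') k :=
  fun P hP => ⟨Finset.subset_inter (hx P hP).1 (hx' P hP).1, (hx P hP).2⟩

theorem MU_zero {U : Finset (Fin d)} {x : Lam K d} (hx : x ∈ MU K U 0) :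
    x = x ∅ • one1 K d := by
  funext P
  rw [Pi.smul_apply, smul_eq_mul, one1]
  by_cases hP : P = ∅
  · rw [if_pos hP, mul_one, hP]
  · rw [if_neg hP, mul_zero]
    by_contra hc
    exact hP (Finset.card_eq_zero.1 (hx P hc).2)

theorem one1_mem (U : Finset (Fin d)) : one1 K d ∈ MU K U 0 := by
  intro P hP
  by_cases h : P = ∅
  · rw [h]
    exact ⟨Finset.empty_subset U, Finset.card_empty⟩
  · exact absurd (if_neg h) hP

/-! ### products -/

theorem wg_empty (a : Fin n → Fin d → K) (x : Lam K d) : wg a ∅ x = x := by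
  rw [wg, Finset.sort_empty]
  rfl

/-- the product along a list with one element moved to the front -/
theorem foldr_orderedInsert (a : Fin n → Fin d → K) (v : Fin n) (x : Lam K d) :
    ∀ l : List (Fin n), l.Pairwise (· ≤ ·) → v ∉ l →
      (l.orderedInsert (· ≤ ·) v).foldr (fun v y => wd (a v) y) x =
        ((-1 : K) ^ l.countP (· < v)) • wd (a v) (l.foldr (fun v y => wd (a v) y) x)
  | [], _, _ => by simp
  | b :: t, hl, hv => by
    rw [List.pairwise_cons] at hl
    rw [List.mem_cons, not_or] at hv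
    by_cases h : v ≤ b
    · rw [List.orderedInsert_cons_of_le _ _ h]
      have h0 : (b :: t).countP (· < v) = 0 := by
        rw [List.countP_eq_zero]
        intro c hc
        rcases List.mem_cons.1 hc with e | hc
        · simp [e, h]
        · simp [h.trans (hl.1 c hc)]
      rw [h0, pow_zero, one_smul]
      rfl
    · rw [List.orderedInsert_of_not_le _ _ h, List.foldr_cons,
        foldr_orderedInsert a v x t hl.2 hv.2, List.foldr_cons, map_smul, wd_wd, smul_neg,
        List.countP_cons_of_pos (by simpa using h), pow_succ, mul_neg_one, neg_smul]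

theorem wg_insert (a : Fin n → Fin d → K) {v : Fin n} {G : Finset (Fin n)} (hv : v ∉ G)
    (x : Lam K d) : wg a (insert v G) x = (sgn v G : K) • wd (a v) (wg a G x) := by
  have h1 : (insert v G).sort (· ≤ ·) = (G.sort (· ≤ ·)).orderedInsert (· ≤ ·) v := by
    have hn : ((G.sort (· ≤ ·)).orderedInsert (· ≤ ·) v).Nodup := by
      rw [(List.perm_orderedInsert (· ≤ ·) v _).nodup_iff, List.nodup_cons]
      exact ⟨fun h => hv ((Finset.mem_sort _).1 h), Finset.sort_nodup _ _⟩
    have hp : ((G.sort (· ≤ ·)).orderedInsert (· ≤ ·) v).Pairwise (· ≤ ·) :=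
      (Finset.pairwise_sort G (· ≤ ·)).orderedInsert _ _
    rw [← (List.toFinset_sort (· ≤ ·) hn).2 hp]
    congr 1
    ext w
    rw [List.mem_toFinset, List.mem_orderedInsert, Finset.mem_sort, Finset.mem_insert]
  have h2 : #{j ∈ G | j < v} = (G.sort (· ≤ ·)).countP (· < v) := by
    rw [← Multiset.coe_countP, Finset.sort_eq, Multiset.countP_eq_card_filter]
    rfl
  rw [wg, h1, foldr_orderedInsert a v x _ (Finset.pairwise_sort G _)
    fun h => hv ((Finset.mem_sort _).1 h), sgn, h2, wg]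
  push_cast
  rfl

theorem av_empty (a : Fin n → Fin d → K) : av a ∅ = one1 K d := wg_empty a _

theorem av_insert (a : Fin n → Fin d → K) {v : Fin n} {G : Finset (Fin n)} (hv : v ∉ G) :
    av a (insert v G) = (sgn v G : K) • wd (a v) (av a G) := wg_insert a hv _

theorem wg_smul (a : Fin n → Fin d → K) (G : Finset (Fin n)) (c : K) (x : Lam K d) :
    wg a G (c • x) = c • wg a G x := by
  rw [wg, wg]
  induction G.sort (· ≤ ·) with
  | nil => rfl
  | cons b t ih => rw [List.foldr_cons, ih, map_smul, List.foldr_cons]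

theorem wd_av (a : Fin n → Fin d → K) {v : Fin n} {G : Finset (Fin n)} (hv : v ∈ G) :
    wd (a v) (av a G) = 0 := by
  rw [← Finset.insert_erase hv, av_insert a (Finset.notMem_erase v G), map_smul, wd_self,
    smul_zero]

theorem av_mem {a : Fin n → Fin d → K} {U : Finset (Fin d)} {G : Finset (Fin n)}
    (h : ∀ v ∈ G, ∀ i, i ∉ U → a v i = 0) : av a G ∈ MU K U #G := by
  induction G using Finset.induction_on with
  | empty =>
    rw [av_empty, Finset.card_empty]
    exact one1_mem U
  | insert v G hv ih =>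
    rw [av_insert a hv, Finset.card_insert_of_notMem hv]
    exact (MU K U (#G + 1)).smul_mem _ (wd_mem (h v (Finset.mem_insert_self v G))
      (ih fun w hw => h w (Finset.mem_insert_of_mem hw)))

end Pool.Agent.Lib.MP_fd6ff4_co.R43
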