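import Pool.Agent.Lib.MP_fd6ff4_co.R43.Alg.Exc
import Pool.Agent.Lib.MP_fd6ff4_co.R43.Words

/-!
# R43, part T3: the chain of the rainbow complex and its boundary

`mc v H` = the colours without a vertex in `H`. The boundary of `TT` is split by the missing colour,
the boundaries of the parts again by the second missing colour, and so on.
-/

set_option autoImplicit false

open Finset

namespace Pool.Agent.Lib.MP_fd6ff4_co.R43

variable {K : Type*} [Field K] {n : ℕ}

/-- the face of the word `w` -/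
def fw (v : Fin 4 → Fin 3 → Fin n) (w : Fin 4 → Fin 3) : Finset (Fin n) :=
  univ.image fun i => v i (w i)

/-- the colours which do not occur in `H` -/
def mc (v : Fin 4 → Fin 3 → Fin n) (H : Finset (Fin n)) : Finset (Fin 4) :=
  univ.filter fun i => ∀ l, v i l ∉ H

/-- `H` is a face of the rainbow complex -/
def Rb (v : Fin 4 → Fin 3 → Fin n) (H : Finset (Fin n)) : Prop := ∃ w ∈ words, H ⊆ fw v w

/-- all the vertices of the 6-simplex but the colours in `S` -/
def US (S : Finset (Fin 4)) : Finset (Fin 7) := univ \ S.image bas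

/-- the coefficients -/
noncomputable def c0 (a : Fin n → Fin 7 → K) (v : Fin 4 → Fin 3 → Fin n) (G : Finset (Fin n)) : K :=
  ∑ w : Fin 4 → Fin 3, if G = fw v w then (cyc w : K) / ∏ i, a (v i (w i)) (bas i) else 0

/-- the chain -/
noncomputable def TT (a : Fin n → Fin 7 → K) (v : Fin 4 → Fin 3 → Fin n) (G : Finset (Fin n)) :
    Lam K 7 := c0 a v G • av a G

variable {a : Fin n → Fin 7 → K} {σ : Fin n → Finset (Fin 7)} {Γ : Finset (Finset (Fin n))}
  {v : Fin 4 → Fin 3 → Fin n}

theorem bas_inj : Function.Injective bas := by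
  intro i j h
  have h1 := congrArg Fin.val h
  simp only [bas] at h1
  exact Fin.ext (by omega)

theorem bas_notMem_fib (i : Fin 4) : bas i ∉ fib := by
  revert i
  decide

theorem mem_US {S : Finset (Fin 4)} {j : Fin 7} : j ∈ US S ↔ ∀ i ∈ S, bas i ≠ j := by
  simp [US]

theorem card_US (S : Finset (Fin 4)) : #(US S) + #S = 7 := by
  have h := card_sdiff_add_card_eq_card (subset_univ (S.image bas))
  rw [card_image_of_injective S bas_inj] at h
  simpa [US] using h

theorem US_inter (S S' : Finset (Fin 4)) : US S ∩ US S' = US (S ∪ S') := by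
  ext j
  simp only [mem_inter, mem_US, mem_union]
  constructor
  · rintro ⟨h1, h2⟩ i (hi | hi)
    · exact h1 i hi
    · exact h2 i hi
  · intro h
    exact ⟨fun i hi => h i (Or.inl hi), fun i hi => h i (Or.inr hi)⟩

theorem mem_fw {w : Fin 4 → Fin 3} {u : Fin n} : u ∈ fw v w ↔ ∃ i, v i (w i) = u := by
  simp [fw]

theorem fw_mem (w : Fin 4 → Fin 3) (i : Fin 4) : v i (w i) ∈ fw v w := mem_fw.2 ⟨i, rfl⟩

/-- the letter of the colour `i` in the face of `w` is `w i` -/
theorem letter_eq (hv : HasR43 Γ σ v) {w : Fin 4 → Fin 3} {i : Fin 4} {l : Fin 3}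
    (h : v i l ∈ fw v w) : l = w i := by
  obtain ⟨j, hj⟩ := mem_fw.1 h
  obtain ⟨h1, h2⟩ := hv.inj _ _ _ _ hj
  subst h1
  exact h2.symm

theorem fw_inj (hv : HasR43 Γ σ v) {w w' : Fin 4 → Fin 3} (h : fw v w = fw v w') : w = w' := by
  funext i
  exact letter_eq hv (h ▸ fw_mem w i)

theorem c0_fw (hv : HasR43 Γ σ v) (w : Fin 4 → Fin 3) :
    c0 a v (fw v w) = (cyc w : K) / ∏ i, a (v i (w i)) (bas i) := by
  rw [c0, sum_eq_single w]
  · rw [if_pos rfl]
  · intro w' _ hw'
    rw [if_neg]
    intro h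
    exact hw' (fw_inj hv h).symm
  · intro h
    exact absurd (mem_univ w) h

theorem c0_ne (hv : HasR43 Γ σ v) {G : Finset (Fin n)} (h : c0 a v G ≠ 0) :
    ∃ w ∈ words, G = fw v w := by
  obtain ⟨w, _, hw⟩ := exists_ne_zero_of_sum_ne_zero h
  have hG : G = fw v w := by
    by_contra h0
    exact hw (if_neg h0)
  refine ⟨w, ?_, hG⟩
  by_contra h0
  apply hw
  rw [if_pos hG]
  simp [cyc, h0]

theorem Rb.down {H H' : Finset (Fin n)} (h : Rb v H) (hH : H' ⊆ H) : Rb v H' := by
  obtain ⟨w, hw, h1⟩ := h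
  exact ⟨w, hw, hH.trans h1⟩

theorem mem_mc {H : Finset (Fin n)} {i : Fin 4} : i ∈ mc v H ↔ ∀ l, v i l ∉ H := by
  simp [mc]

theorem Rb.mem (h : Data K a σ Γ) (hv : HasR43 Γ σ v) {H : Finset (Fin n)} (hH : Rb v H) :
    H ∈ sub σ Γ (US (mc v H)) := by
  obtain ⟨w, hw, h1⟩ := hH
  rw [sub, mem_filter]
  refine ⟨h.down _ (hv.face w hw) _ h1, ?_⟩
  intro j hj
  rw [car, mem_biUnion] at hj
  obtain ⟨u, hu, hj⟩ := hj
  obtain ⟨i, rfl⟩ := mem_fw.1 (h1 hu)
  rw [hv.car, mem_insert] at hj
  rw [mem_US]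
  intro i' hi' he
  rcases hj with hj | hj
  · rw [hj] at he
    have := bas_inj he
    subst this
    exact mem_mc.1 hi' _ hu
  · rw [← he] at hj
    exact bas_notMem_fib i' hj

theorem Rb.card (hv : HasR43 Γ σ v) {H : Finset (Fin n)} (hH : Rb v H) : #(mc v H) + #H = 4 := by
  obtain ⟨w, hw, h1⟩ := hH
  have h2 : H = (univ \ mc v H).image fun i => v i (w i) := by
    ext u
    simp only [mem_image, mem_sdiff, mem_univ, true_and, mem_mc, not_forall, not_not]
    constructor
    · intro hu
      obtain ⟨i, rfl⟩ := mem_fw.1 (h1 hu)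
      exact ⟨i, ⟨w i, hu⟩, rfl⟩
    · rintro ⟨i, ⟨l, hl⟩, rfl⟩
      rwa [← letter_eq hv (h1 hl)]
  have h3 : #H = #(univ \ mc v H) := by
    conv_lhs => rw [h2]
    exact card_image_of_injective _ fun i j hij => (hv.inj _ _ _ _ hij).1
  have h4 := card_sdiff_add_card_eq_card (subset_univ (mc v H))
  rw [h3]
  rw [card_univ, Fintype.card_fin] at h4
  omega

/-- the face of the word with another letter of the colour `c` -/
theorem fw_update (hv : HasR43 Γ σ v) (w : Fin 4 → Fin 3) (c : Fin 4) (l : Fin 3) :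
    fw v (Function.update w c l) = insert (v c l) ((fw v w).erase (v c (w c))) := by
  ext u
  simp only [mem_insert, mem_erase, mem_fw]
  constructor
  · rintro ⟨i, rfl⟩
    by_cases hi : i = c
    · subst hi
      left
      rw [Function.update_self]
    · right
      rw [Function.update_of_ne hi]
      exact ⟨fun h => hi (hv.inj _ _ _ _ h).1, i, rfl⟩
  · rintro (rfl | ⟨h1, i, rfl⟩)
    · exact ⟨c, by rw [Function.update_self]⟩
    · have hi : i ≠ c := by
        rintro rfl
        exact h1 rfl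
      exact ⟨i, by rw [Function.update_of_ne hi]⟩

/-- PROOF. `bd TT H = wd b (av a H)`, `b = ∑ u, c0 (insert u H) • a u` (`av_insert`), over the
letters `u = v c l` of the missing colour `c`; the coordinate `bas c` of `b` is
`∑ l, cyc (w with c ↦ l) / ∏ over i ≠ c = 0` (`cyc_sum`, characteristic 3), so `b` is supported on the
fibre directions. -/
theorem bd_TT_mem [CharP K 3] (h : Data K a σ Γ) (hv : HasR43 Γ σ v)
    (ha : ∀ i l, a (v i l) (bas i) ≠ 0) {H : Finset (Fin n)} {c : Fin 4} (hc : mc v H = {c}) :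
    bd (TT a v) H ∈ MU K (US {c}) 4 := by
  have hcH : ∀ l, v c l ∉ H := mem_mc.1 (by rw [hc]; exact mem_singleton_self c)
  by_cases h0 : ∀ u ∈ univ \ H, c0 a v (insert u H) = 0
  · have h1 : bd (TT a v) H = 0 := by
      rw [bd]
      refine sum_eq_zero fun u hu => ?_
      rw [TT, h0 u hu, zero_smul, smul_zero]
    rw [h1]
    exact Submodule.zero_mem _
  push Not at h0
  obtain ⟨u0, hu0, hne⟩ := h0
  obtain ⟨w0, hw0, hG⟩ := c0_ne hv hne
  have hu0' : u0 = v c (w0 c) := by
    have h1 : v c (w0 c) ∈ insert u0 H := hG ▸ fw_mem w0 c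
    rcases mem_insert.1 h1 with h1 | h1
    · exact h1.symm
    · exact absurd h1 (hcH _)
  have hu0n : u0 ∉ H := (mem_sdiff.1 hu0).2
  have hH : H = (fw v w0).erase (v c (w0 c)) := by
    rw [← hG, ← hu0', erase_insert hu0n]
  have hRb : Rb v H := ⟨w0, hw0, by rw [hH]; exact erase_subset _ _⟩
  have hcard : #H = 3 := by
    have h1 := hRb.card hv
    rw [hc, card_singleton] at h1
    omega
  have hins : ∀ l, insert (v c l) H = fw v (Function.update w0 c l) := by
    intro l
    rw [fw_update hv, ← hH]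
  -- the boundary is a product
  have hbd : bd (TT a v) H = wd (∑ u ∈ univ \ H, c0 a v (insert u H) • a u) (av a H) := by
    rw [wd_sum, bd]
    refine sum_congr rfl fun u hu => ?_
    have hun : u ∉ H := (mem_sdiff.1 hu).2
    rw [TT, av_insert a hun, wd_smul, smul_comm, smul_smul (sgn u H : K)]
    have h1 : ((sgn u H : ℤ) : K) * (sgn u H : K) = 1 := by
      rw [← Int.cast_mul, sgn_mul_self, Int.cast_one]
    rw [h1, one_smul]
  have hav : av a H ∈ MU K (US {c}) 3 := by
    rw [← hcard]
    have h1 := hRb.mem h hv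
    rw [hc] at h1
    exact av_mem (h.zero_of h1)
  rw [hbd]
  refine wd_mem ?_ hav
  intro i hi
  have hic : i = bas c := by
    by_contra h1
    apply hi
    rw [mem_US]
    intro i' hi'
    rw [mem_singleton.1 hi']
    exact fun h2 => h1 h2.symm
  subst hic
  rw [Finset.sum_apply]
  simp only [Pi.smul_apply, smul_eq_mul]
  -- the sum over the letters of `c`
  have hsum : ∑ u ∈ univ \ H, c0 a v (insert u H) * a u (bas c)
      = ∑ l : Fin 3, c0 a v (insert (v c l) H) * a (v c l) (bas c) := by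
    have hinj : Function.Injective (v c) := fun l l' hl => (hv.inj _ _ _ _ hl).2
    rw [← sum_image (f := fun u => c0 a v (insert u H) * a u (bas c)) (s := univ)
      (g := v c) (fun l _ l' _ hl => hinj hl)]
    symm
    refine sum_subset ?_ ?_
    · intro u hu
      obtain ⟨l, _, rfl⟩ := mem_image.1 hu
      exact mem_sdiff.2 ⟨mem_univ _, hcH l⟩
    · intro u hu hu'
      by_cases h1 : c0 a v (insert u H) = 0
      · rw [h1, zero_mul]
      · exfalso
        obtain ⟨w, _, hw⟩ := c0_ne hv h1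
        have h2 : v c (w c) ∈ insert u H := hw ▸ fw_mem w c
        rcases mem_insert.1 h2 with h2 | h2
        · exact hu' (mem_image.2 ⟨w c, mem_univ _, h2⟩)
        · exact hcH _ h2
  rw [hsum]
  have hterm : ∀ l : Fin 3, c0 a v (insert (v c l) H) * a (v c l) (bas c)
      = (cyc (Function.update w0 c l) : K) * (∏ i ∈ univ.erase c, a (v i (w0 i)) (bas i))⁻¹ := by
    intro l
    rw [hins, c0_fw hv, ← mul_prod_erase univ _ (mem_univ c), Function.update_self]
    have h1 : ∏ i ∈ univ.erase c, a (v i (Function.update w0 c l i)) (bas i)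
        = ∏ i ∈ univ.erase c, a (v i (w0 i)) (bas i) :=
      prod_congr rfl fun i hi => by rw [Function.update_of_ne (ne_of_mem_erase hi)]
    rw [h1]
    have h2 := ha c l
    have h3 : ∏ i ∈ univ.erase c, a (v i (w0 i)) (bas i) ≠ 0 :=
      prod_ne_zero_iff.2 fun i _ => ha i _
    field_simp
  rw [sum_congr rfl fun l _ => hterm l, ← sum_mul]
  have h3 : ∑ l : Fin 3, (cyc (Function.update w0 c l) : K) = 0 := by
    rw [← Int.cast_sum]
    exact (CharP.intCast_eq_zero_iff K 3 _).2 (by exact_mod_cast cyc_sum c w0)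
  rw [h3, zero_mul]

end Pool.Agent.Lib.MP_fd6ff4_co.R43
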