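import Pool.Agent.Lib.MP_fd6ff4_co.R43.Alg.Fam

/-!
# R43, part T3: the families `t`, `m`, `p`
-/

set_option autoImplicit false

open Finset

namespace Pool.Agent.Lib.MP_fd6ff4_co.R43

variable {K : Type*} [Field K] {n : ℕ} {a : Fin n → Fin 7 → K} {σ : Fin n → Finset (Fin 7)}
  {Γ : Finset (Finset (Fin n))} {v : Fin 4 → Fin 3 → Fin n}

/-! ### helpers -/

theorem bd_ne {x : Finset (Fin n) → Lam K 7} {H : Finset (Fin n)} (h : bd x H ≠ 0) :
    ∃ u, u ∉ H ∧ x (insert u H) ≠ 0 := by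
  by_contra h0
  push Not at h0
  refine h (sum_eq_zero fun u hu => ?_)
  rw [h0 u (by simpa using hu), smul_zero]

theorem fb_bd_mem {U : Finset (Fin 7)} {x : Finset (Fin n) → Lam K 7} (h : ∀ G, x G ∈ MU K U 4)
    (H : Finset (Fin n)) : bd x H ∈ MU K U 4 :=
  Submodule.sum_mem _ fun _ _ => Submodule.smul_mem _ _ (h _)

theorem bd_kill {x : Finset (Fin n) → Lam K 7} (h : ∀ G, ∀ u ∈ G, wd (a u) (x G) = 0)
    (H : Finset (Fin n)) : ∀ u ∈ H, wd (a u) (bd x H) = 0 := by
  intro u hu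
  rw [wd_bd]
  refine sum_eq_zero fun w _ => ?_
  show _ • wd (a u) (x (insert w H)) = 0
  rw [h _ u (mem_insert_of_mem hu), smul_zero]

theorem mc_anti {H H' : Finset (Fin n)} (h : H ⊆ H') : mc v H' ⊆ mc v H := by
  intro i hi
  simp only [mc, mem_filter, mem_univ, true_and] at hi ⊢
  exact fun l hl => hi l (h hl)

/-- the chain lives on the faces of the rainbow complex which miss the colours `S` -/
def Qs (v : Fin 4 → Fin 3 → Fin n) (S : Finset (Fin 4)) (x : Finset (Fin n) → Lam K 7) : Prop :=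
  ∀ G, x G ≠ 0 → mc v G = S ∧ Rb v G

theorem Qs.bd (hv : HasR43 Γ σ v) {S : Finset (Fin 4)} {x : Finset (Fin n) → Lam K 7}
    (hx : Qs v S x) {H : Finset (Fin n)} (h : bd x H ≠ 0) :
    Rb v H ∧ S ⊆ mc v H ∧ #S + 1 = #(mc v H) := by
  obtain ⟨u, hu, h1⟩ := bd_ne h
  obtain ⟨h2, h3⟩ := hx _ h1
  have h4 : Rb v H := h3.down (subset_insert u H)
  have h5 := h3.card hv
  have h6 := h4.card hv
  rw [card_insert_of_notMem hu, h2] at h5
  refine ⟨h4, ?_, by omega⟩
  rw [← h2]
  exact mc_anti (subset_insert u H)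

/-- the part of the boundary which misses exactly the colours `S` -/
noncomputable def prt (v : Fin 4 → Fin 3 → Fin n) (S : Finset (Fin 4))
    (x : Finset (Fin n) → Lam K 7) (H : Finset (Fin n)) : Lam K 7 :=
  if mc v H = S then bd x H else 0

theorem prt_Qs (hv : HasR43 Γ σ v) {S S' : Finset (Fin 4)} {x : Finset (Fin n) → Lam K 7}
    (hx : Qs v S x) : Qs v S' (prt v S' x) := by
  intro G hG
  unfold prt at hG
  split_ifs at hG with h
  · exact ⟨h, (hx.bd hv hG).1⟩
  · exact absurd rfl hG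

theorem prt_sum (hv : HasR43 Γ σ v) {S : Finset (Fin 4)} {x : Finset (Fin n) → Lam K 7}
    (hx : Qs v S x) (H : Finset (Fin n)) :
    bd x H = ∑ c ∈ univ \ S, prt v (insert c S) x H := by
  by_cases h : bd x H = 0
  · rw [h]
    symm
    refine sum_eq_zero fun c _ => ?_
    unfold prt
    rw [h, ite_self]
  · obtain ⟨_, h2, h3⟩ := hx.bd hv h
    obtain ⟨c, hc, h4⟩ := exists_eq_insert_iff.2 ⟨h2, h3⟩
    rw [sum_eq_single c]
    · unfold prt
      rw [if_pos h4.symm]
    · intro e he hec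
      unfold prt
      rw [if_neg]
      intro h5
      rw [← h4] at h5
      have h6 : e ∈ insert c S := by rw [h5]; exact mem_insert_self e S
      rcases mem_insert.1 h6 with h7 | h7
      · exact hec h7
      · exact (mem_sdiff.1 he).2 h7
    · intro h5
      exact absurd (mem_sdiff.2 ⟨mem_univ c, hc⟩) h5

theorem prt_kill {S : Finset (Fin 4)} {x : Finset (Fin n) → Lam K 7}
    (h : ∀ G, ∀ u ∈ G, wd (a u) (x G) = 0) :
    ∀ G, ∀ u ∈ G, wd (a u) (prt v S x G) = 0 := by
  intro G u hu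
  unfold prt
  split_ifs
  · exact bd_kill h G u hu
  · exact map_zero _

/-- the three conditions together -/
theorem EE_of (h : Data K a σ Γ) (hv : HasR43 Γ σ v) {S : Finset (Fin 4)} {s : ℕ}
    (hs : #S + s = 4) {x : Finset (Fin n) → Lam K 7} (hx : Qs v S x)
    (hval : ∀ G, x G ∈ MU K (US S) 4) (hk : ∀ G, ∀ u ∈ G, wd (a u) (x G) = 0) :
    EE a σ Γ (US S) s x := by
  refine ⟨fun G hG => ?_, hval, hk⟩
  obtain ⟨h1, h2⟩ := hx G hG
  refine ⟨?_, ?_⟩
  · rw [← h1]
    exact h2.mem h hv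
  · have := h2.card hv
    rw [h1] at this
    omega

theorem TT_Qs (hv : HasR43 Γ σ v) : Qs v ∅ (TT a v) := by
  intro G hG
  have h0 : c0 a v G ≠ 0 := by
    intro h
    refine hG ?_
    unfold TT
    rw [h, zero_smul]
  obtain ⟨w, hw, hGw⟩ := c0_ne hv h0
  have h1 : Rb v G := ⟨w, hw, hGw.le⟩
  refine ⟨?_, h1⟩
  rw [eq_empty_iff_forall_notMem]
  intro i hi
  simp only [mc, mem_filter, mem_univ, true_and] at hi
  refine hi (w i) ?_
  rw [hGw]
  exact mem_image.2 ⟨i, mem_univ i, rfl⟩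

theorem TT_kill : ∀ G, ∀ u ∈ G, wd (a u) (TT a v G) = 0 := by
  intro G u hu
  unfold TT
  rw [map_smul, wd_av a hu, smul_zero]

/-! ### the families -/

noncomputable def tt (a : Fin n → Fin 7 → K) (v : Fin 4 → Fin 3 → Fin n) (c : Fin 4) :
    Finset (Fin n) → Lam K 7 := prt v {c} (TT a v)

noncomputable def mm (a : Fin n → Fin 7 → K) (v : Fin 4 → Fin 3 → Fin n) (c c' : Fin 4) :
    Finset (Fin n) → Lam K 7 := if c = c' then 0 else prt v {c, c'} (tt a v c')

noncomputable def pp (a : Fin n → Fin 7 → K) (v : Fin 4 → Fin 3 → Fin n) (c c' c'' : Fin 4) :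
    Finset (Fin n) → Lam K 7 :=
  if c = c' ∨ c = c'' ∨ c' = c'' then 0 else prt v {c, c', c''} (mm a v c' c'')

theorem zero_Qs (S : Finset (Fin 4)) : Qs v S (0 : Finset (Fin n) → Lam K 7) :=
  fun _ h => absurd rfl h

theorem tt_Qs (hv : HasR43 Γ σ v) (c : Fin 4) : Qs v {c} (tt a v c) := prt_Qs hv (TT_Qs hv)

theorem mm_Qs (hv : HasR43 Γ σ v) (c c' : Fin 4) : Qs v {c, c'} (mm a v c c') := by
  unfold mm
  split_ifs with h
  · exact zero_Qs _
  · exact prt_Qs hv (tt_Qs hv c')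

theorem pp_Qs (hv : HasR43 Γ σ v) (c c' c'' : Fin 4) :
    Qs v {c, c', c''} (pp a v c c' c'') := by
  unfold pp
  split_ifs with h
  · exact zero_Qs _
  · exact prt_Qs hv (mm_Qs hv c' c'')

theorem zero_kill : ∀ G : Finset (Fin n), ∀ u ∈ G,
    wd (a u) ((0 : Finset (Fin n) → Lam K 7) G) = 0 := fun _ _ _ => map_zero _

theorem tt_kill (c : Fin 4) : ∀ G, ∀ u ∈ G, wd (a u) (tt a v c G) = 0 := prt_kill TT_kill

theorem mm_kill (c c' : Fin 4) : ∀ G, ∀ u ∈ G, wd (a u) (mm a v c c' G) = 0 := by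
  unfold mm
  split_ifs with h
  · exact zero_kill
  · exact prt_kill (tt_kill c')

theorem pp_kill (c c' c'' : Fin 4) : ∀ G, ∀ u ∈ G, wd (a u) (pp a v c c' c'' G) = 0 := by
  unfold pp
  split_ifs with h
  · exact zero_kill
  · exact prt_kill (mm_kill c' c'')

/-! ### sums -/

theorem tt_sum (hv : HasR43 Γ σ v) (H : Finset (Fin n)) :
    bd (TT a v) H = ∑ c, tt a v c H := by
  rw [prt_sum hv (TT_Qs hv), sdiff_empty]
  refine sum_congr rfl fun c _ => ?_
  rw [insert_empty_eq]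
  rfl

theorem mm_self (c : Fin 4) : mm a v c c = 0 := if_pos rfl

theorem mm_sum (hv : HasR43 Γ σ v) (c : Fin 4) (H : Finset (Fin n)) :
    bd (tt a v c) H = ∑ c', mm a v c' c H := by
  rw [prt_sum hv (tt_Qs hv c)]
  symm
  rw [← sum_subset (subset_univ (univ \ {c})) ?_]
  · refine sum_congr rfl fun e he => ?_
    have h1 : e ≠ c := by
      intro h
      exact (mem_sdiff.1 he).2 (mem_singleton.2 h)
    unfold mm
    rw [if_neg h1]
  · intro e _ he
    have h1 : e = c := by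
      by_contra h
      exact he (mem_sdiff.2 ⟨mem_univ e, fun h' => h (mem_singleton.1 h')⟩)
    rw [h1, mm_self]
    rfl

theorem pp_sum (hv : HasR43 Γ σ v) (c c' : Fin 4) (H : Finset (Fin n)) :
    bd (mm a v c c') H = ∑ c'', pp a v c'' c c' H := by
  by_cases hc : c = c'
  · subst hc
    rw [mm_self, bd_zero]
    symm
    refine sum_eq_zero fun e _ => ?_
    unfold pp
    rw [if_pos (Or.inr (Or.inr rfl))]
    rfl
  rw [prt_sum hv (mm_Qs hv c c')]
  symm
  rw [← sum_subset (subset_univ (univ \ {c, c'})) ?_]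
  · refine sum_congr rfl fun e he => ?_
    have h1 : ¬(e = c ∨ e = c' ∨ c = c') := by
      rintro (h | h | h)
      · exact (mem_sdiff.1 he).2 (by simp [h])
      · exact (mem_sdiff.1 he).2 (by simp [h])
      · exact hc h
    unfold pp
    rw [if_neg h1]
  · intro e _ he
    have h1 : e = c ∨ e = c' := by
      by_contra h
      push Not at h
      exact he (mem_sdiff.2 ⟨mem_univ e, fun h' => by
        rcases mem_insert.1 h' with h' | h'
        · exact h.1 h'
        · exact h.2 (mem_singleton.1 h')⟩)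
    unfold pp
    rw [if_pos (by tauto)]
    rfl

/-! ### antisymmetry -/

theorem bd_funext {ι : Type*} (s : Finset ι) {x : Finset (Fin n) → Lam K 7}
    {y : ι → Finset (Fin n) → Lam K 7} (h : ∀ H, x H = ∑ i ∈ s, y i H) (H : Finset (Fin n)) :
    bd x H = ∑ i ∈ s, bd (y i) H := by
  have h1 : x = ∑ i ∈ s, y i := by
    funext G
    rw [h G, Finset.sum_apply]
  rw [h1, bd_sum]

theorem tt_anti (hv : HasR43 Γ σ v) {c c' : Fin 4} (hc : c ≠ c') {H : Finset (Fin n)}
    (hH : mc v H = {c, c'}) : bd (tt a v c) H = -bd (tt a v c') H := by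
  have h1 := bd_funext univ (tt_sum (a := a) hv) H
  rw [bd_bd] at h1
  have h2 : ∑ e, bd (tt a v e) H = bd (tt a v c) H + bd (tt a v c') H := by
    rw [← sum_subset (subset_univ {c, c'}) ?_, sum_pair hc]
    intro e _ he
    by_contra h
    obtain ⟨_, h3, _⟩ := (tt_Qs hv e).bd hv h
    rw [hH] at h3
    exact he (h3 (mem_singleton_self e))
  rw [h2] at h1
  exact eq_neg_of_add_eq_zero_left h1.symm

theorem mm_anti (hv : HasR43 Γ σ v) (c c' : Fin 4) : mm a v c c' = -mm a v c' c := by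
  by_cases hc : c = c'
  · subst hc
    rw [mm_self, neg_zero]
  funext H
  rw [Pi.neg_apply]
  unfold mm prt
  rw [if_neg hc, if_neg (Ne.symm hc), pair_comm c' c]
  by_cases hH : mc v H = {c, c'}
  · rw [if_pos hH, if_pos hH]
    rw [tt_anti hv (Ne.symm hc) (by rw [hH, pair_comm])]
  · rw [if_neg hH, if_neg hH, neg_zero]

theorem bd_mm_anti (hv : HasR43 Γ σ v) {c c' c'' : Fin 4} (h1 : c ≠ c') {H : Finset (Fin n)} (hH : mc v H = {c, c', c''}) :
    bd (mm a v c' c'') H = -bd (mm a v c c'') H := by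
  have h4 := bd_funext univ (mm_sum (a := a) hv c'') H
  rw [bd_bd] at h4
  have h5 : ∑ e, bd (mm a v e c'') H = bd (mm a v c' c'') H + bd (mm a v c c'') H := by
    rw [← sum_subset (subset_univ {c', c}) ?_, sum_pair (Ne.symm h1)]
    intro e _ he
    by_contra h
    obtain ⟨_, h6, _⟩ := (mm_Qs hv e c'').bd hv h
    rw [hH] at h6
    have h7 : e ∈ ({c, c', c''} : Finset (Fin 4)) := h6 (mem_insert_self e _)
    simp only [mem_insert, mem_singleton] at h7 he
    have h8 : e = c'' := by tauto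
    rw [h8, mm_self, bd_zero] at h
    exact h rfl
  rw [h5] at h4
  exact eq_neg_of_add_eq_zero_left h4.symm

theorem pp_anti1 (hv : HasR43 Γ σ v) (c c' c'' : Fin 4) :
    pp a v c c' c'' = -pp a v c' c c'' := by
  by_cases hc : c = c' ∨ c = c'' ∨ c' = c''
  · unfold pp
    rw [if_pos hc, if_pos (by tauto), neg_zero]
  · have hc' : ¬(c' = c ∨ c' = c'' ∨ c = c'') := by tauto
    push Not at hc
    funext H
    rw [Pi.neg_apply]
    unfold pp prt
    rw [if_neg (by tauto), if_neg hc', insert_comm c' c]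
    by_cases hH : mc v H = {c, c', c''}
    · rw [if_pos hH, if_pos hH]
      exact bd_mm_anti hv hc.1 hH
    · rw [if_neg hH, if_neg hH, neg_zero]

theorem pp_anti2 (hv : HasR43 Γ σ v) (c c' c'' : Fin 4) :
    pp a v c c' c'' = -pp a v c c'' c' := by
  by_cases hc : c = c' ∨ c = c'' ∨ c' = c''
  · unfold pp
    rw [if_pos hc, if_pos (by tauto), neg_zero]
  · have hc' : ¬(c = c'' ∨ c = c' ∨ c'' = c') := by tauto
    funext H
    rw [Pi.neg_apply]
    unfold pp prt
    rw [if_neg hc, if_neg hc', pair_comm c'' c']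
    by_cases hH : mc v H = {c, c', c''}
    · rw [if_pos hH, if_pos hH, mm_anti hv c' c'', bd_neg]
    · rw [if_neg hH, if_neg hH, neg_zero]

/-! ### values -/

theorem tt_val [CharP K 3] (h : Data K a σ Γ) (hv : HasR43 Γ σ v)
    (ha : ∀ i l, a (v i l) (bas i) ≠ 0) (c : Fin 4) (G : Finset (Fin n)) :
    tt a v c G ∈ MU K (US {c}) 4 := by
  unfold tt prt
  split_ifs with h1
  · exact bd_TT_mem h hv ha h1
  · exact Submodule.zero_mem _

theorem mm_val [CharP K 3] (h : Data K a σ Γ) (hv : HasR43 Γ σ v)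
    (ha : ∀ i l, a (v i l) (bas i) ≠ 0) (c c' : Fin 4) (G : Finset (Fin n)) :
    mm a v c c' G ∈ MU K (US {c, c'}) 4 := by
  by_cases hc : c = c'
  · subst hc
    rw [mm_self]
    exact Submodule.zero_mem _
  unfold mm prt
  rw [if_neg hc]
  split_ifs with h1
  · have h2 : bd (tt a v c') G ∈ MU K (US {c'}) 4 := fb_bd_mem (tt_val h hv ha c') G
    have h3 : bd (tt a v c') G ∈ MU K (US {c}) 4 := by
      rw [tt_anti hv (Ne.symm hc) (by rw [h1, pair_comm])]
      exact Submodule.neg_mem _ (fb_bd_mem (tt_val h hv ha c) G)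
    have h4 := MU_inter h3 h2
    rwa [US_inter] at h4
  · exact Submodule.zero_mem _

theorem pp_val [CharP K 3] (h : Data K a σ Γ) (hv : HasR43 Γ σ v)
    (ha : ∀ i l, a (v i l) (bas i) ≠ 0) (c c' c'' : Fin 4) (G : Finset (Fin n)) :
    pp a v c c' c'' G ∈ MU K (US {c, c', c''}) 4 := by
  by_cases hc : c = c' ∨ c = c'' ∨ c' = c''
  · unfold pp
    rw [if_pos hc]
    exact Submodule.zero_mem _
  · unfold pp prt
    rw [if_neg hc]
    push Not at hc
    split_ifs with h1
    · have h2 : bd (mm a v c' c'') G ∈ MU K (US {c', c''}) 4 := fb_bd_mem (mm_val h hv ha c' c'') G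
      have h3 : bd (mm a v c' c'') G ∈ MU K (US {c, c''}) 4 := by
        rw [bd_mm_anti hv hc.1 h1]
        exact Submodule.neg_mem _ (fb_bd_mem (mm_val h hv ha c c'') G)
      have h4 := MU_inter h3 h2
      rw [US_inter] at h4
      have h5 : ({c, c''} : Finset (Fin 4)) ∪ {c', c''} = {c, c', c''} := by
        ext e
        simp only [mem_union, mem_insert, mem_singleton]
        tauto
      rwa [h5] at h4
    · exact Submodule.zero_mem _

theorem pp_bd [CharP K 3] (h : Data K a σ Γ) (hv : HasR43 Γ σ v)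
    (ha : ∀ i l, a (v i l) (bas i) ≠ 0) (c c' c'' : Fin 4) (H : Finset (Fin n)) :
    bd (pp a v c c' c'') H = 0 := by
  by_cases hc : c = c' ∨ c = c'' ∨ c' = c''
  · unfold pp
    rw [if_pos hc, bd_zero]
  push Not at hc
  obtain ⟨e, he⟩ : ∃ e : Fin 4, e ≠ c ∧ e ≠ c' ∧ e ≠ c'' := by
    have : ∀ x y z : Fin 4, ∃ e : Fin 4, e ≠ x ∧ e ≠ y ∧ e ≠ z := by decide
    exact this c c' c''
  have hU : ∀ i : Fin 4, i ≠ c → i ≠ c' → i ≠ c'' → i = e := by
    have : ∀ x y z e i : Fin 4, x ≠ y → x ≠ z → y ≠ z → e ≠ x → e ≠ y → e ≠ z → i ≠ x → i ≠ y →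
      i ≠ z → i = e := by decide
    intro i h1 h2 h3
    exact this c c' c'' e i hc.1 hc.2.1 hc.2.2 he.1 he.2.1 he.2.2 h1 h2 h3
  have h4 := bd_funext univ (pp_sum (a := a) hv c' c'') H
  rw [bd_bd] at h4
  have h5 : ∑ i, bd (pp a v i c' c'') H = bd (pp a v c c' c'') H + bd (pp a v e c' c'') H := by
    rw [← sum_subset (subset_univ {c, e}) ?_, sum_pair (Ne.symm he.1)]
    intro i _ hi
    simp only [mem_insert, mem_singleton, not_or] at hi
    have h6 : i = c' ∨ i = c'' := by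
      by_contra h7
      push Not at h7
      exact hi.2 (hU i hi.1 h7.1 h7.2)
    unfold pp
    rw [if_pos (by tauto), bd_zero]
  rw [h5] at h4
  have h6 : bd (pp a v c c' c'') H ∈ MU K (US {c, c', c''}) 4 := fb_bd_mem (pp_val h hv ha c c' c'') H
  have h7 : bd (pp a v c c' c'') H ∈ MU K (US {e, c', c''}) 4 := by
    rw [eq_neg_of_add_eq_zero_left h4.symm]
    exact Submodule.neg_mem _ (fb_bd_mem (pp_val h hv ha e c' c'') H)
  have h8 := MU_inter h6 h7
  rw [US_inter] at h8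
  refine MU_eq_zero ?_ h8
  have h9 : ({c, c', c''} ∪ {e, c', c''} : Finset (Fin 4)) = univ := by
    rw [eq_univ_iff_forall]
    intro i
    simp only [mem_union, mem_insert, mem_singleton]
    by_cases h10 : i = e
    · exact Or.inr (Or.inl h10)
    · by_contra h11
      push Not at h11
      exact h10 (hU i h11.1.1 h11.1.2.1 h11.1.2.2)
  have h10 := card_US ({c, c', c''} ∪ {e, c', c''})
  rw [h9, card_univ, Fintype.card_fin] at h10
  rw [h9]
  omega

/-- The families. PROOF. `t c H = bd TT H` if `mc v H = {c}` and `0` otherwise;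
`m c' c H = bd (t c) H` if `c ≠ c'`, `mc v H = {c, c'}`, and `0` otherwise;
`p c'' c' c H = bd (m c' c) H` if the three are different and `mc v H = {c, c', c''}`, and `0`
otherwise. `bd_bd` gives the antisymmetry, `MU_inter` the values; `bd (p ..) ∅` is in
`MU (US {three}) 4` for two different triples, so in `MU (US univ) 4 = 0`. -/
theorem exists_families [CharP K 3] (h : Data K a σ Γ) (hv : HasR43 Γ σ v)
    (ha : ∀ i l, a (v i l) (bas i) ≠ 0) :
    ∃ (t : Fin 4 → Finset (Fin n) → Lam K 7) (m : Fin 4 → Fin 4 → Finset (Fin n) → Lam K 7)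
      (p : Fin 4 → Fin 4 → Fin 4 → Finset (Fin n) → Lam K 7),
      (∀ c, EE a σ Γ (US {c}) 3 (t c)) ∧
      (∀ c c', c ≠ c' → EE a σ Γ (US {c, c'}) 2 (m c c')) ∧
      (∀ c c' c'', c ≠ c' → c ≠ c'' → c' ≠ c'' → EE a σ Γ (US {c, c', c''}) 1 (p c c' c'')) ∧
      (∀ H, bd (TT a v) H = ∑ c, t c H) ∧
      (∀ c H, bd (t c) H = ∑ c', m c' c H) ∧
      (∀ c c' H, bd (m c c') H = ∑ c'', p c'' c c' H) ∧
      (∀ c c' c'' H, bd (p c c' c'') H = 0) ∧
      (∀ c c', m c c' = -m c' c) ∧ (∀ c, m c c = 0) ∧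
      (∀ c c' c'', p c c' c'' = -p c' c c'') ∧ (∀ c c' c'', p c c' c'' = -p c c'' c') ∧
      (∀ c c', p c c c' = 0) := by
  refine ⟨tt a v, mm a v, pp a v, ?_, ?_, ?_, tt_sum hv, mm_sum hv, pp_sum hv, pp_bd h hv ha,
    mm_anti hv, mm_self, pp_anti1 hv, pp_anti2 hv, ?_⟩
  · intro c
    exact EE_of h hv (by simp) (tt_Qs hv c) (tt_val h hv ha c) (tt_kill c)
  · intro c c' hc
    exact EE_of h hv (by rw [card_pair hc]) (mm_Qs hv c c') (mm_val h hv ha c c') (mm_kill c c')
  · intro c c' c'' h1 h2 h3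
    refine EE_of h hv ?_ (pp_Qs hv c c' c'') (pp_val h hv ha c c' c'') (pp_kill c c' c'')
    rw [card_insert_of_notMem (by simp [h1, h2]), card_pair h3]
  · intro c c'
    unfold pp
    rw [if_pos (Or.inl rfl)]

end Pool.Agent.Lib.MP_fd6ff4_co.R43
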