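import Pool.Agent.Lib.MP_fd6ff4_co.R43.Alg.Lee

/-!
# R43, part T3: the extension theorem of Lee
-/

set_option autoImplicit false

open Finset

namespace Pool.Agent.Lib.MP_fd6ff4_co.R43

variable {K : Type*} [Field K] {d n : ℕ} {a : Fin n → Fin d → K} {σ : Fin n → Finset (Fin d)}
  {Γ : Finset (Finset (Fin n))}

/-! ### auxiliary statements on exponents -/

theorem lb_pr_sum (η : Fin d → K) (t : Finset (Fin n)) (f : Fin n → K) :
    pr η (∑ j ∈ t, f j • a j) = ∑ j ∈ t, f j * pr η (a j) := by
  simp only [pr, Finset.sum_apply, Pi.smul_apply, smul_eq_mul, mul_sum]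
  rw [sum_comm]
  exact sum_congr rfl fun j _ => sum_congr rfl fun i _ => by ring

theorem lb_pr_neg (η x : Fin d → K) : pr η (-x) = -pr η x := by
  simp only [pr, Pi.neg_apply, mul_neg, sum_neg_distrib]

theorem lb_pr_zero (η : Fin d → K) : pr η 0 = 0 := by
  simp only [pr, Pi.zero_apply, mul_zero, sum_const_zero]

theorem lb_degree_add (N : Fin n →₀ ℕ) (j : Fin n) :
    (N + Finsupp.single j 1).degree = N.degree + 1 := by
  rw [map_add, Finsupp.degree_single]

theorem lb_support_add (N : Fin n →₀ ℕ) (j : Fin n) :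
    (N + Finsupp.single j 1).support = insert j N.support := by
  ext i
  simp only [Finsupp.mem_support_iff, Finsupp.add_apply, mem_insert]
  by_cases h : i = j
  · subst h
    simp
  · simp [Finsupp.single_eq_of_ne h, h]

theorem lb_ex_apply (G : Finset (Fin n)) (i : Fin n) : ex G i = if i ∈ G then 1 else 0 := by
  rw [ex, Finsupp.finsetSum_apply]
  by_cases h : i ∈ G
  · rw [if_pos h, sum_eq_single i]
    · simp
    · intro j _ hj
      exact Finsupp.single_eq_of_ne (Ne.symm hj)
    · exact fun h' => absurd h h'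
  · rw [if_neg h]
    refine sum_eq_zero fun j hj => Finsupp.single_eq_of_ne ?_
    rintro rfl
    exact h hj

theorem lb_ex_support (G : Finset (Fin n)) : (ex G).support = G := by
  ext i
  rw [Finsupp.mem_support_iff, lb_ex_apply]
  by_cases h : i ∈ G <;> simp [h]

theorem lb_ex_degree (G : Finset (Fin n)) : (ex G).degree = #G := by
  rw [ex, map_sum]
  simp

theorem lb_card_le (M : Fin n →₀ ℕ) : #M.support ≤ M.degree := by
  rw [Finsupp.degree_apply, card_eq_sum_ones]
  exact sum_le_sum fun i hi => Nat.one_le_iff_ne_zero.mpr (Finsupp.mem_support_iff.mp hi)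

/-- an exponent whose degree is the size of its support is square-free -/
theorem lb_eq_ex {M : Fin n →₀ ℕ} (h : M.degree ≤ #M.support) : M = ex M.support := by
  have h1 : ∀ i ∈ M.support, 1 ≤ M i := fun i hi =>
    Nat.one_le_iff_ne_zero.mpr (Finsupp.mem_support_iff.mp hi)
  have h2 : ∑ i ∈ M.support, M i = ∑ i ∈ M.support, 1 := by
    refine le_antisymm ?_ (sum_le_sum h1)
    rw [← card_eq_sum_ones, ← Finsupp.degree_apply]
    exact h
  have h3 := (sum_eq_sum_iff_of_le h1).mp h2.symm
  ext i
  rw [lb_ex_apply]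
  split_ifs with hi
  · exact (h3 i hi).symm
  · exact Finsupp.notMem_support_iff.mp hi

/-- an exponent whose degree is larger than its support has an entry at least 2 -/
theorem lb_exists_two {M : Fin n →₀ ℕ} (h : #M.support < M.degree) :
    ∃ v ∈ M.support, ∃ N : Fin n →₀ ℕ, N.support = M.support ∧ N.degree + 1 = M.degree ∧
      M = N + Finsupp.single v 1 := by
  by_contra hcon
  have h1 : ∀ v ∈ M.support, M v ≤ 1 := by
    intro v hv
    by_contra h2
    refine hcon ⟨v, hv, M - Finsupp.single v 1, ?_, ?_, ?_⟩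
    · ext i
      simp only [Finsupp.mem_support_iff, Finsupp.tsub_apply]
      by_cases hi : i = v
      · subst hi
        simp only [Finsupp.single_eq_same]
        omega
      · rw [Finsupp.single_eq_of_ne hi, Nat.sub_zero]
    · have h3 : M - Finsupp.single v 1 + Finsupp.single v 1 = M := by
        ext i
        simp only [Finsupp.add_apply, Finsupp.tsub_apply]
        by_cases hi : i = v
        · subst hi
          simp only [Finsupp.single_eq_same]
          omega
        · rw [Finsupp.single_eq_of_ne hi, Nat.sub_zero, Nat.add_zero]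
      conv_rhs => rw [← h3]
      rw [lb_degree_add]
    · ext i
      simp only [Finsupp.add_apply, Finsupp.tsub_apply]
      by_cases hi : i = v
      · subst hi
        simp only [Finsupp.single_eq_same]
        omega
      · rw [Finsupp.single_eq_of_ne hi, Nat.sub_zero, Nat.add_zero]
  have h2 : M.degree ≤ #M.support := by
    rw [Finsupp.degree_apply, card_eq_sum_ones]
    exact sum_le_sum h1
  omega

theorem lb_car_mono {H G : Finset (Fin n)} (h : H ⊆ G) : car σ H ⊆ car σ G := by
  unfold car
  exact biUnion_subset_biUnion_of_subset_left _ h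

/-- the values on the exponents with at least `r` support elements -/
structure LeeUpTo (a : Fin n → Fin d → K) (σ : Fin n → Finset (Fin d))
    (Γ : Finset (Finset (Fin n))) (q : ℕ) (c : Finset (Fin n) → K) (r : ℕ)
    (s : (Fin n →₀ ℕ) → K) : Prop where
  supp : ∀ M, s M ≠ 0 → M.support ∈ Γ ∧ M.degree = q + 1
  rel : ∀ N : Fin n →₀ ℕ, r ≤ #N.support → ∑ j, s (N + Finsupp.single j 1) • a j = 0
  sq : ∀ G ∈ Γ, #G = q + 1 → s (ex G) = c G
  int : ∀ M : Fin n →₀ ℕ, #M.support ≤ q → car σ M.support = univ → s M = 0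

theorem lb_base (q : ℕ) (c : Finset (Fin n) → K) : ∃ s, LeeUpTo a σ Γ q c (q + 1) s := by
  classical
  refine ⟨fun M => if M.support ∈ Γ ∧ #M.support = q + 1 ∧ M.degree = q + 1 then c M.support
    else 0, ?_, ?_, ?_, ?_⟩
  · intro M hM
    beta_reduce at hM
    split_ifs at hM with h
    · exact ⟨h.1, h.2.2⟩
    · exact absurd rfl hM
  · intro N hN
    refine sum_eq_zero fun j _ => ?_
    rw [if_neg, zero_smul]
    rintro ⟨_, _, h⟩
    rw [lb_degree_add] at h
    have := lb_card_le N
    omega
  · intro G hG hGc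
    rw [lb_ex_support, lb_ex_degree, if_pos ⟨hG, hGc, hGc⟩]
  · intro M hM _
    rw [if_neg]
    rintro ⟨_, h, _⟩
    omega

/-- one step for one face -/
theorem lb_face {q : ℕ} {c : Finset (Fin n) → K} {r : ℕ} {s : (Fin n →₀ ℕ) → K}
    (hs : LeeUpTo a σ Γ q c (r + 1) s)
    (hc : ∀ G, c G ≠ 0 → G ∈ Γ ∧ #G = q + 1)
    (hrel : ∀ H ∈ Γ, #H = q → ∀ η : Fin d → K, (∀ u ∈ H, pr η (a u) = 0) →
        ∑ u ∈ univ \ H, c (insert u H) * pr η (a u) = 0)
    (hint : ∀ G, car σ G = univ → ∀ H ⊆ G, H ≠ G → car σ H = univ → c G = 0)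
    {G : Finset (Fin n)} (hG : G ∈ Γ) (hGr : #G = r)
    {ξ : Fin n → Fin d → K} (hξ : DualFam a G ξ) :
    ∃ sG : (Fin n →₀ ℕ) → K, (∀ N : Fin n →₀ ℕ, N.support = G → N.degree = q →
      ∑ u ∈ G, sG (N + Finsupp.single u 1) • a u +
        ∑ w ∈ univ \ G, s (N + Finsupp.single w 1) • a w = 0) ∧
      (r ≤ q → car σ G = univ → ∀ M : Fin n →₀ ℕ, M.support = G → M.degree = q + 1 →
        sG M = 0) := by
  classical
  obtain ⟨sG, hsG⟩ := lee_local hξ (q := q)
    (fun N => -∑ w ∈ univ \ G, s (N + Finsupp.single w 1) • a w) (by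
      intro N' hN' hdeg η ζ
      have key : ∀ η ζ : Fin d → K, ∑ u ∈ G, pr η (a u) *
          pr ζ (-∑ w ∈ univ \ G, s (N' + Finsupp.single u 1 + Finsupp.single w 1) • a w) =
          ∑ w ∈ univ \ G, ∑ w' ∈ univ \ G,
            s (N' + Finsupp.single w 1 + Finsupp.single w' 1) * pr ζ (a w) * pr η (a w') := by
        intro η ζ
        have h1 : ∀ w ∈ univ \ G, ∑ u ∈ G, s (N' + Finsupp.single w 1 + Finsupp.single u 1) *
            pr η (a u) = -∑ w' ∈ univ \ G,
              s (N' + Finsupp.single w 1 + Finsupp.single w' 1) * pr η (a w') := by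
          intro w hw
          have hwG : w ∉ G := by simpa using hw
          have h2 := hs.rel (N' + Finsupp.single w 1) (by
            rw [lb_support_add, hN', card_insert_of_notMem hwG, hGr])
          have h3 := congrArg (pr η) h2
          rw [lb_pr_sum, lb_pr_zero, ← sum_sdiff (subset_univ G), add_comm] at h3
          exact eq_neg_of_add_eq_zero_left h3
        calc ∑ u ∈ G, pr η (a u) *
                pr ζ (-∑ w ∈ univ \ G, s (N' + Finsupp.single u 1 + Finsupp.single w 1) • a w)
            = ∑ u ∈ G, -∑ w ∈ univ \ G, pr ζ (a w) *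
              (s (N' + Finsupp.single w 1 + Finsupp.single u 1) * pr η (a u)) := by
              refine sum_congr rfl fun u _ => ?_
              rw [lb_pr_neg, lb_pr_sum, mul_neg, mul_sum]
              congr 1
              refine sum_congr rfl fun w _ => ?_
              rw [add_right_comm]
              ring
          _ = -∑ w ∈ univ \ G, pr ζ (a w) * ∑ u ∈ G,
              s (N' + Finsupp.single w 1 + Finsupp.single u 1) * pr η (a u) := by
              rw [sum_neg_distrib, sum_comm]
              congr 1
              exact sum_congr rfl fun w _ => by rw [mul_sum]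
          _ = _ := by
              rw [← sum_neg_distrib]
              refine sum_congr rfl fun w hw => ?_
              rw [h1 w hw, mul_neg, neg_neg, mul_sum]
              exact sum_congr rfl fun w' _ => by ring
      rw [sum_sub_distrib, key η ζ, key ζ η, sub_eq_zero, sum_comm]
      refine sum_congr rfl fun w _ => sum_congr rfl fun w' _ => ?_
      rw [add_right_comm]
      ring) (by
      intro N hN hdeg hq η hη
      have hNex : N = ex G := by
        rw [← hN]
        exact lb_eq_ex (by rw [hN, hdeg, hq])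
      have h1 := hrel G hG hq.symm η hη
      rw [lb_pr_neg, lb_pr_sum, neg_eq_zero, ← h1]
      refine sum_congr rfl fun w hw => ?_
      have hwG : w ∉ G := by simpa using hw
      have h2 : N + Finsupp.single w 1 = ex (insert w G) := by
        rw [hNex, ex, ex, sum_insert hwG, add_comm]
      rw [h2]
      by_cases h3 : insert w G ∈ Γ
      · rw [hs.sq _ h3 (by rw [card_insert_of_notMem hwG, hq])]
      · have h4 : s (ex (insert w G)) = 0 := by
          by_contra h5
          have h6 := (hs.supp _ h5).1
          rw [lb_ex_support] at h6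
          exact h3 h6
        have h5 : c (insert w G) = 0 := by
          by_contra h6
          exact h3 (hc _ h6).1
        rw [h4, h5])
  refine ⟨sG, fun N hN hdeg => ?_, fun hrq hcar M hM hdeg => ?_⟩
  · rw [hsG N hN hdeg, neg_add_cancel]
  · obtain ⟨v, hv, N, hN, hNd, hMN⟩ := lb_exists_two (M := M) (by rw [hM, hdeg, hGr]; omega)
    rw [hM] at hN hv
    have h1 := hsG N hN (by omega)
    beta_reduce at h1
    rw [sum_eq_zero (s := univ \ G), neg_zero] at h1
    · have h2 := congrArg (pr (ξ v)) h1
      rw [lb_pr_sum, lb_pr_zero, sum_eq_single v] at h2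
      · rw [hξ v hv v hv, if_pos rfl, mul_one] at h2
        rw [hMN]
        exact h2
      · intro u hu huv
        rw [hξ v hv u hu, if_neg (Ne.symm huv), mul_zero]
      · exact fun h => absurd hv h
    · intro w hw
      have hwG : w ∉ G := by simpa using hw
      have hsup : (N + Finsupp.single w 1).support = insert w G := by rw [lb_support_add, hN]
      have hcar' : car σ (insert w G) = univ := by
        rw [← univ_subset_iff, ← hcar]
        exact lb_car_mono (subset_insert w G)
      have h3 : s (N + Finsupp.single w 1) = 0 := by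
        by_contra h4
        obtain ⟨h5, h6⟩ := hs.supp _ h4
        by_cases h7 : r + 1 ≤ q
        · refine h4 (hs.int _ ?_ ?_)
          · rw [hsup, card_insert_of_notMem hwG, hGr]
            exact h7
          · rw [hsup]
            exact hcar'
        · have h8 : N + Finsupp.single w 1 = ex (insert w G) := by
            rw [← hsup]
            refine lb_eq_ex ?_
            rw [h6, hsup, card_insert_of_notMem hwG, hGr]
            omega
          rw [hsup] at h5
          rw [h8, hs.sq _ h5 (by rw [card_insert_of_notMem hwG, hGr]; omega)] at h4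
          refine h4 (hint _ hcar' G (subset_insert w G) (fun h9 => hwG ?_) hcar)
          rw [h9]
          exact mem_insert_self w G
      rw [h3, zero_smul]

theorem lb_step (hdown : ∀ F ∈ Γ, ∀ G, G ⊆ F → G ∈ Γ)
    (hdual : ∀ G ∈ Γ, ∃ ξ : Fin n → Fin d → K, DualFam a G ξ)
    {q : ℕ} {c : Finset (Fin n) → K} {r : ℕ} {s : (Fin n →₀ ℕ) → K} (hr : r ≤ q)
    (hs : LeeUpTo a σ Γ q c (r + 1) s)
    (hc : ∀ G, c G ≠ 0 → G ∈ Γ ∧ #G = q + 1)
    (hrel : ∀ H ∈ Γ, #H = q → ∀ η : Fin d → K, (∀ u ∈ H, pr η (a u) = 0) →
        ∑ u ∈ univ \ H, c (insert u H) * pr η (a u) = 0)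
    (hint : ∀ G, car σ G = univ → ∀ H ⊆ G, H ≠ G → car σ H = univ → c G = 0) :
    ∃ s, LeeUpTo a σ Γ q c r s := by
  classical
  have hex : ∀ G : Finset (Fin n), ∃ sG : (Fin n →₀ ℕ) → K, G ∈ Γ → #G = r →
      (∀ N : Fin n →₀ ℕ, N.support = G → N.degree = q →
        ∑ u ∈ G, sG (N + Finsupp.single u 1) • a u +
          ∑ w ∈ univ \ G, s (N + Finsupp.single w 1) • a w = 0) ∧
      (r ≤ q → car σ G = univ → ∀ M : Fin n →₀ ℕ, M.support = G → M.degree = q + 1 →
        sG M = 0) := by
    intro G
    by_cases h : G ∈ Γ ∧ #G = r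
    · obtain ⟨ξ, hξ⟩ := hdual G h.1
      obtain ⟨sG, hsG⟩ := lb_face hs hc hrel hint h.1 h.2 hξ
      exact ⟨sG, fun _ _ => hsG⟩
    · exact ⟨0, fun h1 h2 => absurd ⟨h1, h2⟩ h⟩
  choose sf hsf using hex
  refine ⟨fun M => if #M.support = r ∧ M.support ∈ Γ ∧ M.degree = q + 1 then sf M.support M
    else s M, ?_, ?_, ?_, ?_⟩
  · intro M hM
    beta_reduce at hM
    split_ifs at hM with h
    · exact h.2
    · exact hs.supp M hM
  · intro N hN
    by_cases hdeg : N.degree = q
    · by_cases hNΓ : N.support ∈ Γ
      · by_cases hNr : #N.support = r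
        · rw [← sum_sdiff (subset_univ N.support), add_comm]
          have h1 := (hsf N.support hNΓ hNr).1 N rfl hdeg
          rw [← h1]
          congr 1
          · refine sum_congr rfl fun u hu => ?_
            have h2 : (N + Finsupp.single u 1).support = N.support := by
              rw [lb_support_add, insert_eq_of_mem hu]
            rw [h2, lb_degree_add, if_pos ⟨hNr, hNΓ, by rw [hdeg]⟩]
          · refine sum_congr rfl fun w hw => ?_
            have hw' : w ∉ N.support := (mem_sdiff.mp hw).2
            rw [if_neg]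
            rintro ⟨h3, _⟩
            rw [lb_support_add, card_insert_of_notMem hw'] at h3
            omega
        · rw [← hs.rel N (by omega)]
          refine sum_congr rfl fun j _ => ?_
          rw [if_neg]
          rintro ⟨h3, _⟩
          rw [lb_support_add] at h3
          have h4 := card_le_card (subset_insert j N.support)
          omega
      · refine sum_eq_zero fun j _ => ?_
        have h5 : (N + Finsupp.single j 1).support ∉ Γ := by
          rw [lb_support_add]
          exact fun h => hNΓ (hdown _ h _ (subset_insert j _))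
        rw [if_neg fun h => h5 h.2.1]
        have h6 : s (N + Finsupp.single j 1) = 0 := by
          by_contra h7
          exact h5 (hs.supp _ h7).1
        rw [h6, zero_smul]
    · refine sum_eq_zero fun j _ => ?_
      have h5 : (N + Finsupp.single j 1).degree ≠ q + 1 := by
        rw [lb_degree_add]
        omega
      rw [if_neg fun h => h5 h.2.2]
      have h6 : s (N + Finsupp.single j 1) = 0 := by
        by_contra h7
        exact h5 (hs.supp _ h7).2
      rw [h6, zero_smul]
  · intro G hG hGc
    rw [if_neg, hs.sq G hG hGc]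
    rintro ⟨h3, _⟩
    rw [lb_ex_support] at h3
    omega
  · intro M hM hcar
    split_ifs with h
    · exact (hsf M.support h.2.1 h.1).2 hr hcar M rfl h.2.2
    · exact hs.int M hM hcar

/-- Lee's extension theorem, here for degree `q + 1`. PROOF. Downward induction over the size of the
support (`s` on the exponents with at least `r` support elements) with `lee_local`,
`R N = - ∑ w ∉ G, s (N + w) • a w`; for `N'` with support `G`, `N'.degree + 1 = q`, the compatibility
is the relation at the `N' + w`, `w ∉ G`, and the antisymmetry in `w`, `w'`. -/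
theorem lee (hdown : ∀ F ∈ Γ, ∀ G, G ⊆ F → G ∈ Γ)
    (hdual : ∀ G ∈ Γ, ∃ ξ : Fin n → Fin d → K, DualFam a G ξ) (q : ℕ)
    (c : Finset (Fin n) → K) (hc : ∀ G, c G ≠ 0 → G ∈ Γ ∧ #G = q + 1)
    (hrel : ∀ H ∈ Γ, #H = q → ∀ η : Fin d → K, (∀ u ∈ H, pr η (a u) = 0) →
        ∑ u ∈ univ \ H, c (insert u H) * pr η (a u) = 0)
    (hint : ∀ G, car σ G = univ → ∀ H ⊆ G, H ≠ G → car σ H = univ → c G = 0) :
    ∃ s : (Fin n →₀ ℕ) → K, (∀ M, s M ≠ 0 → M.support ∈ Γ ∧ M.degree = q + 1) ∧
      (∀ N i, ∑ j, a j i * s (N + Finsupp.single j 1) = 0) ∧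
      (∀ G ∈ Γ, #G = q + 1 → s (ex G) = c G) ∧
      (∀ M : Fin n →₀ ℕ, #M.support ≤ q → car σ M.support = univ → s M = 0) := by
  have h1 : ∀ t, t ≤ q + 1 → ∃ s, LeeUpTo a σ Γ q c (q + 1 - t) s := by
    intro t
    induction t with
    | zero => exact fun _ => lb_base q c
    | succ t ih =>
      intro ht
      obtain ⟨s, hs⟩ := ih (by omega)
      have h2 : q + 1 - t = (q + 1 - (t + 1)) + 1 := by omega
      rw [h2] at hs
      exact lb_step hdown hdual (by omega) hs hc hrel hint
  obtain ⟨s, hs⟩ := h1 (q + 1) le_rfl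
  refine ⟨s, hs.supp, fun N i => ?_, hs.sq, hs.int⟩
  have h3 := congrFun (hs.rel N (by omega)) i
  rw [Finset.sum_apply] at h3
  rw [← Pi.zero_apply (M := fun _ => K) i, ← h3]
  exact sum_congr rfl fun j _ => by rw [Pi.smul_apply, smul_eq_mul, mul_comm]

end Pool.Agent.Lib.MP_fd6ff4_co.R43
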