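import Pool.Agent.Lib.MP_fd6ff4_co.R43.Alg.Lee

/-!
# R43, part T3: the functional
-/

set_option autoImplicit false

open Finset

namespace Pool.Agent.Lib.MP_fd6ff4_co.R43

section

variable {K : Type*} [Field K] {d n : ℕ} {a : Fin d → Fin n → K} {σ : Fin n → Finset (Fin d)}
  {Γ : Finset (Finset (Fin n))}

/-- the functional on the polynomials with the values `s` on the monomials -/
noncomputable def Phi (s : (Fin n →₀ ℕ) → K) : MvPolynomial (Fin n) K →ₗ[K] K :=
  (MvPolynomial.basisMonomials (Fin n) K).constr K s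

theorem Phi_monomial (s : (Fin n →₀ ℕ) → K) (M : Fin n →₀ ℕ) (c : K) :
    Phi s (MvPolynomial.monomial M c) = c * s M := by
  have h : MvPolynomial.monomial M c = c • (MvPolynomial.basisMonomials (Fin n) K) M := by
    rw [MvPolynomial.coe_basisMonomials, MvPolynomial.smul_monomial, smul_eq_mul, mul_one]
  rw [h, map_smul, Phi, Module.Basis.constr_basis, smul_eq_mul]

/-- the polynomials all of whose multiples are killed by the functional -/
noncomputable def Kill (s : (Fin n →₀ ℕ) → K) : Ideal (MvPolynomial (Fin n) K) where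
  carrier := {f | ∀ g, Phi s (g * f) = 0}
  zero_mem' := fun g => by rw [mul_zero, map_zero]
  add_mem' := fun {f f'} hf hf' g => by
    rw [mul_add, map_add, hf g, hf' g, add_zero]
  smul_mem' := fun c f hf g => by
    rw [smul_eq_mul, ← mul_assoc]
    exact hf _

theorem mem_Kill {s : (Fin n →₀ ℕ) → K} {f : MvPolynomial (Fin n) K} :
    f ∈ Kill s ↔ ∀ g, Phi s (g * f) = 0 := Iff.rfl

/-- it is enough to multiply with monomials -/
theorem mem_Kill_of {s : (Fin n →₀ ℕ) → K} {f : MvPolynomial (Fin n) K}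
    (h : ∀ N c, Phi s (MvPolynomial.monomial N c * f) = 0) : f ∈ Kill s := by
  rw [mem_Kill]
  intro g
  induction g using MvPolynomial.induction_on' with
  | monomial N c => exact h N c
  | add p q hp hq => rw [add_mul, map_add, hp, hq, add_zero]

theorem monomial_mem_Kill {s : (Fin n →₀ ℕ) → K} {M : Fin n →₀ ℕ}
    (h : ∀ N, s (N + M) = 0) (c : K) : MvPolynomial.monomial M c ∈ Kill s := by
  refine mem_Kill_of fun N c' => ?_
  rw [MvPolynomial.monomial_mul, Phi_monomial, h, mul_zero]

theorem ng_mon_eq (F : Finset (Fin n)) :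
    mon K F = MvPolynomial.monomial (ex F) 1 := by
  classical
  unfold mon ex
  induction F using Finset.induction_on with
  | empty => simp
  | insert a F ha ih =>
    rw [Finset.prod_insert ha, Finset.sum_insert ha, ih, MvPolynomial.X,
      MvPolynomial.monomial_mul, one_mul]

theorem ng_ex_apply (F : Finset (Fin n)) (j : Fin n) : ex F j = if j ∈ F then 1 else 0 := by
  classical
  unfold ex
  rw [Finsupp.finsetSum_apply]
  simp only [Finsupp.single_apply]
  rw [Finset.sum_ite_eq' F j]

theorem ng_ex_support (F : Finset (Fin n)) : (ex F).support = F := by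
  ext j
  rw [Finsupp.mem_support_iff, ng_ex_apply]
  split_ifs with h
  · simp [h]
  · simp [h]

/-- an exponent with `degree ≤ #support` is square-free -/
theorem ng_eq_ex_of {M : Fin n →₀ ℕ} (h : M.degree ≤ #M.support) : M = ex M.support := by
  have h1 : ∀ j ∈ M.support, 1 ≤ M j := fun j hj => Nat.one_le_iff_ne_zero.2
    (Finsupp.mem_support_iff.1 hj)
  have h2 : M.degree = ∑ j ∈ M.support, M j := rfl
  have h3 : ∑ j ∈ M.support, 1 = ∑ j ∈ M.support, M j := by
    refine le_antisymm (Finset.sum_le_sum h1) ?_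
    rw [← h2, Finset.sum_const, smul_eq_mul, mul_one]
    exact h
  have h4 := (Finset.sum_eq_sum_iff_of_le h1).1 h3
  ext j
  rw [ng_ex_apply]
  split_ifs with h5
  · exact (h4 j h5).symm
  · exact Finsupp.notMem_support_iff.1 h5

theorem ng_card_support_le (M : Fin n →₀ ℕ) : #M.support ≤ M.degree := by
  have h2 : M.degree = ∑ j ∈ M.support, M j := rfl
  rw [h2, Finset.card_eq_sum_ones]
  exact Finset.sum_le_sum fun j hj => Nat.one_le_iff_ne_zero.2 (Finsupp.mem_support_iff.1 hj)

theorem ng_car_univ_mono {F G : Finset (Fin n)} (h : F ⊆ G) (hF : car σ F = univ) :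
    car σ G = univ := by
  rw [← Finset.univ_subset_iff, ← hF]
  exact Finset.biUnion_subset_biUnion_of_subset_left _ h

theorem ng_support_subset_add (N M : Fin n →₀ ℕ) : M.support ⊆ (N + M).support := by
  intro j hj
  rw [Finsupp.mem_support_iff] at *
  rw [Finsupp.add_apply]
  omega

/-- the ideal of the relations is killed -/
theorem relIdeal_le_Kill {q : ℕ} (hdown : ∀ F ∈ Γ, ∀ G, G ⊆ F → G ∈ Γ) {s : (Fin n →₀ ℕ) → K}
    (h1 : ∀ M, s M ≠ 0 → M.support ∈ Γ ∧ M.degree = q + 1)
    (h2 : ∀ N i, ∑ j, a i j * s (N + Finsupp.single j 1) = 0) : relIdeal a Γ ≤ Kill s := by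
  refine sup_le (Ideal.span_le.2 ?_) (Ideal.span_le.2 ?_)
  · rintro _ ⟨F, hF, rfl⟩
    rw [ng_mon_eq]
    refine monomial_mem_Kill (fun N => ?_) 1
    by_contra h
    refine hF (hdown _ (h1 _ h).1 _ ?_)
    have := ng_support_subset_add N (ex F)
    rwa [ng_ex_support] at this
  · rintro _ ⟨i, rfl⟩
    refine mem_Kill_of fun N c => ?_
    have e : MvPolynomial.monomial N c * theta a i =
        ∑ j, MvPolynomial.monomial (N + Finsupp.single j 1) (c * a i j) := by
      unfold theta
      rw [Finset.mul_sum]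
      refine Finset.sum_congr rfl fun j _ => ?_
      rw [MvPolynomial.C_mul_X_eq_monomial, MvPolynomial.monomial_mul]
    rw [e, map_sum]
    simp only [Phi_monomial]
    rw [← mul_zero c, ← h2 N i, Finset.mul_sum]
    refine Finset.sum_congr rfl fun j _ => ?_
    rw [mul_assoc]

/-- the homogeneous elements of low degree of the ideal of the interior faces are killed -/
theorem low_mem_Kill {q : ℕ} {s : (Fin n →₀ ℕ) → K}
    (h1 : ∀ M, s M ≠ 0 → M.support ∈ Γ ∧ M.degree = q + 1)
    (h3 : ∀ M : Fin n →₀ ℕ, #M.support ≤ q → car σ M.support = univ → s M = 0)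
    (h4 : ∀ G, #G = q + 1 → car σ G = univ → ∀ H ⊆ G, H ≠ G → car σ H = univ → s (ex G) = 0)
    {r : ℕ} (hr : r ≤ q) {f : MvPolynomial (Fin n) K} (hf : f ∈ interiorIdeal K σ Γ)
    (hh : f.IsHomogeneous r) : f ∈ Kill s := by
  classical
  have hset : {f | ∃ G ∈ Γ, car σ G = Finset.univ ∧ f = mon K G} =
      (fun M => MvPolynomial.monomial M (1 : K)) '' {M | ∃ G ∈ Γ, car σ G = univ ∧ M = ex G} := by
    ext f
    constructor
    · rintro ⟨G, hG, hG', rfl⟩
      exact ⟨ex G, ⟨G, hG, hG', rfl⟩, (ng_mon_eq G).symm⟩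
    · rintro ⟨_, ⟨G, hG, hG', rfl⟩, rfl⟩
      exact ⟨G, hG, hG', (ng_mon_eq G).symm⟩
  unfold interiorIdeal at hf
  rw [hset, MvPolynomial.mem_ideal_span_monomial_image] at hf
  rw [MvPolynomial.as_sum f]
  refine Ideal.sum_mem _ fun M hM => monomial_mem_Kill (fun N => ?_) _
  obtain ⟨_, ⟨G, hG, hG', rfl⟩, hle⟩ := hf M hM
  have hMd : M.degree = r := by
    by_contra h
    exact (MvPolynomial.mem_support_iff.1 hM) (hh.coeff_eq_zero h)
  have hMc : car σ M.support = univ := by
    refine ng_car_univ_mono (F := G) (fun j hj => ?_) hG'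
    have h5 := hle j
    rw [ng_ex_apply, if_pos hj] at h5
    rw [Finsupp.mem_support_iff]
    omega
  have hsub := ng_support_subset_add N M
  have hc : car σ (N + M).support = univ := ng_car_univ_mono hsub hMc
  by_contra hne
  obtain ⟨-, hd⟩ := h1 _ hne
  by_cases hq : #(N + M).support ≤ q
  · exact hne (h3 _ hq hc)
  · have h6 : (N + M) = ex (N + M).support := ng_eq_ex_of (by omega)
    have h7 : #(N + M).support = q + 1 := by
      have := ng_card_support_le (N + M)
      omega
    apply hne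
    rw [h6]
    refine h4 _ h7 hc M.support hsub (fun h => ?_) hMc
    have h8 := ng_card_support_le M
    rw [h, h7, hMd] at h8
    omega

/-- A functional on the face ring which kills the `θ_i` shows that a square-free monomial of an
interior face is not in the module generated by the elements of degree at most `q`. -/
theorem not_gen {q : ℕ} (hdown : ∀ F ∈ Γ, ∀ G, G ⊆ F → G ∈ Γ) {s : (Fin n →₀ ℕ) → K}
    (h1 : ∀ M, s M ≠ 0 → M.support ∈ Γ ∧ M.degree = q + 1)
    (h2 : ∀ N i, ∑ j, a i j * s (N + Finsupp.single j 1) = 0)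
    (h3 : ∀ M : Fin n →₀ ℕ, #M.support ≤ q → car σ M.support = univ → s M = 0)
    (h4 : ∀ G, #G = q + 1 → car σ G = univ → ∀ H ⊆ G, H ≠ G → car σ H = univ → s (ex G) = 0)
    {G : Finset (Fin n)} (hG : G ∈ Γ) (hGq : #G = q + 1) (hGc : car σ G = univ)
    (hs : s (ex G) ≠ 0) : ¬ GeneratedLE a σ Γ q := by
  intro hgen
  have hrel := relIdeal_le_Kill (a := a) hdown h1 h2
  have hmem : Ideal.Quotient.mk (relIdeal a Γ) (mon K G) ∈ localModule a σ Γ :=
    Ideal.mem_map_of_mem _ (Ideal.subset_span ⟨G, hG, hGc, rfl⟩)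
  have hle : Ideal.span (lowElements a σ Γ q) ≤
      (Kill s).map (Ideal.Quotient.mk (relIdeal a Γ)) := by
    refine Ideal.span_le.2 ?_
    rintro _ ⟨r, hr, f, hf, hh, rfl⟩
    exact Ideal.mem_map_of_mem _ (low_mem_Kill h1 h3 h4 hr hf hh)
  rw [hgen] at hmem
  obtain ⟨f, hf, hfe⟩ := (Ideal.mem_map_iff_of_surjective _ Ideal.Quotient.mk_surjective).1
    (hle hmem)
  have h5 : mon K G ∈ Kill s := by
    have h6 : mon K G - f ∈ relIdeal a Γ := Ideal.Quotient.eq.1 hfe.symm
    have h7 := Ideal.add_mem _ (hrel h6) hf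
    rwa [sub_add_cancel] at h7
  have h8 := mem_Kill.1 h5 1
  rw [one_mul, ng_mon_eq, Phi_monomial, one_mul] at h8
  exact hs h8

end

end Pool.Agent.Lib.MP_fd6ff4_co.R43
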