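import Pool.Agent.Lib.MP_fd6ff4_co.R43.Alg.Solve

/-!
# R43, part T3: the weights
-/

set_option autoImplicit false

open Finset

namespace Pool.Agent.Lib.MP_fd6ff4_co.R43

section aux

variable {K : Type*} [Field K] {d n : ℕ}

private theorem wt_pr_sum {ι : Type*} (s : Finset ι) (c : ι → K) (f : ι → Fin d → K)
    (η : Fin d → K) : pr η (∑ i ∈ s, c i • f i) = ∑ i ∈ s, c i * pr η (f i) := by
  unfold pr
  simp only [Finset.sum_apply, Pi.smul_apply, smul_eq_mul, mul_sum]
  rw [sum_comm]
  exact sum_congr rfl fun i _ => sum_congr rfl fun j _ => by ring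

/-- the boundary of a chain whose values are multiples of the `av a G` -/
private theorem wt_bd (a : Fin n → Fin d → K) (c : Finset (Fin n) → K)
    (x : Finset (Fin n) → Lam K d) (hx : ∀ G, x G = c G • av a G) (H : Finset (Fin n)) :
    bd x H = wd (∑ u ∈ univ \ H, c (insert u H) • a u) (av a H) := by
  unfold bd
  rw [wd_sum]
  refine sum_congr rfl fun u hu => ?_
  have hu' : u ∉ H := (mem_sdiff.1 hu).2
  rw [hx, av_insert a hu', wd_smul, smul_smul, smul_smul]
  congr 1
  have h1 : ((sgn u H : ℤ) : K) * (sgn u H : K) = 1 := by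
    rw [← Int.cast_mul, sgn_mul_self, Int.cast_one]
  calc ((sgn u H : ℤ) : K) * c (insert u H) * (sgn u H : K)
      = c (insert u H) * (((sgn u H : ℤ) : K) * (sgn u H : K)) := by ring
    _ = c (insert u H) := by rw [h1, mul_one]

end aux

variable {K : Type*} [Field K] {n : ℕ} {a : Fin n → Fin 7 → K} {σ : Fin n → Finset (Fin 7)}
  {Γ : Finset (Finset (Fin n))} {v : Fin 4 → Fin 3 → Fin n}

private theorem wt_card_fw (hv : HasR43 Γ σ v) (w : Fin 4 → Fin 3) : #(fw v w) = 4 := by
  unfold fw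
  rw [card_image_of_injective _ (fun i j hij => (hv.inj _ _ _ _ hij).1), card_univ, Fintype.card_fin]

private theorem wt_supp (hv : HasR43 Γ σ v) {G : Finset (Fin n)} (h : TT a v G ≠ 0) :
    G ∈ Γ ∧ #G = 4 := by
  have hc : c0 a v G ≠ 0 := fun h0 => h (by unfold TT; rw [h0, zero_smul])
  obtain ⟨w, hw, rfl⟩ := c0_ne hv hc
  exact ⟨hv.face w hw, wt_card_fw hv w⟩

/-- The weights. PROOF. `x = TT - ∑ c, y c` is killed by the vectors, has degree 4, so
`x G = c G • av a G` for the `G ∈ Γ`, `#G = 4` (`factor_av`), `bd x = 0`; so for `#H = 3`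
`wd (∑ u, c (insert u H) • a u) (av a H) = 0` (`av_insert`) and `pr_eq_zero`. For interior `G` the
`y c G` are zero. -/
theorem exists_weights [CharP K 3] (h : Data K a σ Γ) (hv : HasR43 Γ σ v)
    (ha : ∀ i l, a (v i l) (bas i) ≠ 0) :
    ∃ c : Finset (Fin n) → K, (∀ G, c G ≠ 0 → G ∈ Γ ∧ #G = 4) ∧
      (∀ G ∈ Γ, #G = 4 → car σ G = univ → c G = c0 a v G) ∧
      ∀ H ∈ Γ, #H = 3 → ∀ η : Fin 7 → K, (∀ u ∈ H, pr η (a u) = 0) →
        ∑ u ∈ univ \ H, c (insert u H) * pr η (a u) = 0 := by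
  classical
  obtain ⟨y, hy, hbd⟩ := exists_solution h hv ha
  set x : Finset (Fin n) → Lam K 7 := TT a v - ∑ c, y c with hxdef
  have hxG : ∀ G, x G = TT a v G - ∑ c, y c G := fun G => by
    rw [hxdef, Pi.sub_apply, Finset.sum_apply]
  -- the support of `x`
  have hsupp : ∀ G, x G ≠ 0 → G ∈ Γ ∧ #G = 4 := by
    intro G hG
    by_cases hT : TT a v G = 0
    · have : ∑ c, y c G ≠ 0 := fun h0 => hG (by rw [hxG, hT, h0, sub_zero])
      obtain ⟨c, -, hc⟩ := exists_ne_zero_of_sum_ne_zero this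
      obtain ⟨h1, h2⟩ := (hy c).supp G hc
      exact ⟨(mem_filter.1 h1).1, h2⟩
    · exact wt_supp hv hT
  -- the values are killed
  have hkill : ∀ G, ∀ u ∈ G, wd (a u) (x G) = 0 := by
    intro G u hu
    rw [hxG, map_sub, map_sum]
    have h1 : wd (a u) (TT a v G) = 0 := by
      unfold TT
      rw [map_smul, wd_av a hu, smul_zero]
    rw [h1, sum_eq_zero fun c _ => (hy c).kill G u hu, sub_zero]
  -- the degree
  have hval : ∀ G, x G ∈ MU K univ 4 := by
    intro G
    rw [hxG]
    refine Submodule.sub_mem _ ?_ (Submodule.sum_mem _ fun c _ =>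
      MU_mono (subset_univ _) ((hy c).val G))
    by_cases hT : TT a v G = 0
    · rw [hT]
      exact Submodule.zero_mem _
    · have h4 := (wt_supp hv hT).2
      unfold TT
      refine Submodule.smul_mem _ _ ?_
      have := av_mem (K := K) (a := a) (U := univ) (G := G)
        (fun u _ i hi => absurd (mem_univ i) hi)
      rwa [h4] at this
  -- the coefficients
  have hfac : ∀ G, G ∈ Γ → #G = 4 → ∃ c : K, x G = c • av a G := by
    intro G hG h4
    obtain ⟨ξ, hξ⟩ := h.dual G hG
    refine factor_av hξ (U := univ) ?_ (hkill G)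
    rw [h4]
    exact hval G
  let c : Finset (Fin n) → K := fun G =>
    if hG : G ∈ Γ ∧ #G = 4 then (hfac G hG.1 hG.2).choose else 0
  have hc : ∀ G, x G = c G • av a G := by
    intro G
    by_cases hG : G ∈ Γ ∧ #G = 4
    · have h1 : c G = (hfac G hG.1 hG.2).choose := dif_pos hG
      rw [h1]
      exact (hfac G hG.1 hG.2).choose_spec
    · have h1 : c G = 0 := dif_neg hG
      rw [h1, zero_smul]
      by_contra h2
      exact hG (hsupp G h2)
  have hbx : ∀ H, bd x H = 0 := by
    intro H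
    rw [hxdef, bd_sub, bd_sum, hbd, sub_self]
  refine ⟨c, fun G hG => ?_, fun G hG h4 hcar => ?_, fun H hH h3 η hη => ?_⟩
  · by_contra h1
    exact hG (dif_neg h1)
  · obtain ⟨ξ, hξ⟩ := h.dual G hG
    have hy0 : ∀ i, y i G = 0 := by
      intro i
      by_contra h1
      have h2 := (mem_filter.1 ((hy i).supp G h1).1).2
      rw [hcar] at h2
      have h3 := h2 (mem_univ (bas i))
      unfold US at h3
      simp at h3
    have h1 : c G • av a G = c0 a v G • av a G := by
      rw [← hc, hxG, sum_eq_zero fun i _ => hy0 i, sub_zero]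
      rfl
    have h2 : (c G - c0 a v G) • av a G = 0 := by
      rw [sub_smul, h1, sub_self]
    rcases smul_eq_zero.1 h2 with h3 | h3
    · exact sub_eq_zero.1 h3
    · exact absurd h3 (av_ne_zero hξ)
  · obtain ⟨ξ, hξ⟩ := h.dual H hH
    have h1 := hbx H
    rw [wt_bd a c x hc H] at h1
    have h2 := pr_eq_zero hξ h1 η hη
    rwa [wt_pr_sum] at h2

end Pool.Agent.Lib.MP_fd6ff4_co.R43
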