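import Pool.Agent.Lib.MP_fd6ff4_co.R43.Alg.Hall
import Pool.Agent.Lib.MP_fd6ff4_co.R43.Alg.Weights
import Pool.Agent.Lib.MP_fd6ff4_co.R43.Alg.LeeB
import Pool.Agent.Lib.MP_fd6ff4_co.R43.Alg.NotGen

/-!
# R43, part T3: the end
-/

set_option autoImplicit false

open Finset

namespace Pool.Agent.Lib.MP_fd6ff4_co.R43

theorem genField_charP (k : Type*) [Field k] (p : ℕ) [CharP k p] {n d : ℕ}
    (σ : Fin n → Finset (Fin d)) : CharP (GenField k σ) p :=
  charP_of_injective_algebraMap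
    (IsFractionRing.injective (MvPolynomial (Idx σ) k) (GenField k σ)) p

theorem fin_data (k : Type*) [Field k] {n d : ℕ} {Γ : Finset (Finset (Fin n))}
    {σ : Fin n → Finset (Fin d)}
    (hdown : ∀ F ∈ Γ, ∀ G, G ⊆ F → G ∈ Γ) (hdim : ∀ G ∈ Γ, #G ≤ #(car σ G))
    (hex : ∀ U F r, r < #U → ExactAt (GenField k σ) σ Γ U F r) :
    Data (GenField k σ) (vec k σ) σ Γ where
  down := hdown
  zero v _ h := vec_zero k σ v h
  dual G hG := exists_dual k σ G fun F hF => hdim F (hdown G hG F hF)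
  exact := hex

/-- a proper face of a word face has a colour less -/
theorem fin_car {n : ℕ} {Γ : Finset (Finset (Fin n))} {σ : Fin n → Finset (Fin 7)}
    {v : Fin 4 → Fin 3 → Fin n} (hv : HasR43 Γ σ v) (w : Fin 4 → Fin 3) {H : Finset (Fin n)}
    (hH : H ⊆ fw v w) (hcar : car σ H = univ) : H = fw v w := by
  refine Subset.antisymm hH fun j hj => ?_
  obtain ⟨i, _, rfl⟩ := mem_image.mp hj
  have h1 : bas i ∈ car σ H := by rw [hcar]; exact mem_univ _
  obtain ⟨j, hj, h2⟩ := mem_biUnion.mp h1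
  obtain ⟨i', _, h3⟩ := mem_image.mp (hH hj)
  rw [← h3, hv.car, mem_insert] at h2
  have h4 : i = i' := by
    rcases h2 with h2 | h2
    · have h5 := congrArg Fin.val h2
      simp only [bas] at h5
      exact Fin.ext (by omega)
    · exfalso
      simp only [fib, bas, mem_insert, mem_singleton, Fin.ext_iff] at h2
      simp at h2
  rw [h4, h3]
  exact hj

theorem fin_card {n : ℕ} {Γ : Finset (Finset (Fin n))} {σ : Fin n → Finset (Fin 7)}
    {v : Fin 4 → Fin 3 → Fin n} (hv : HasR43 Γ σ v) (w : Fin 4 → Fin 3) : #(fw v w) = 4 := by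
  rw [fw, card_image_of_injective]
  · simp
  · intro i i' h
    exact (hv.inj _ _ _ _ h).1

theorem fin_univ {n : ℕ} {Γ : Finset (Finset (Fin n))} {σ : Fin n → Finset (Fin 7)}
    {v : Fin 4 → Fin 3 → Fin n} (hv : HasR43 Γ σ v) (w : Fin 4 → Fin 3) :
    car σ (fw v w) = univ := by
  rw [← univ_subset_iff]
  intro x _
  have h1 : ∀ x : Fin 7, x ∈ fib ∨ ∃ i, x = bas i := by decide
  rcases h1 x with h | ⟨i, rfl⟩
  · refine mem_biUnion.mpr ⟨v 0 (w 0), mem_image.mpr ⟨0, mem_univ _, rfl⟩, ?_⟩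
    rw [hv.car]
    exact mem_insert_of_mem h
  · refine mem_biUnion.mpr ⟨v i (w i), mem_image.mpr ⟨i, mem_univ _, rfl⟩, ?_⟩
    rw [hv.car]
    exact mem_insert_self _ _

/-- T3 from the exactness -/
theorem not_generated_of (k : Type*) [Field k] [CharP k 3] {n : ℕ} {Γ : Finset (Finset (Fin n))}
    {σ : Fin n → Finset (Fin 7)} {v : Fin 4 → Fin 3 → Fin n}
    (hdown : ∀ F ∈ Γ, ∀ G, G ⊆ F → G ∈ Γ) (hdim : ∀ G ∈ Γ, #G ≤ #(car σ G))
    (hex : ∀ U F r, r < #U → ExactAt (GenField k σ) σ Γ U F r)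
    (hv : HasR43 Γ σ v) : ¬ GeneratedLE (genA k σ) σ Γ 3 := by
  have : CharP (GenField k σ) 3 := genField_charP k 3 σ
  have hD := fin_data k hdown hdim hex
  have ha : ∀ i l, vec k σ (v i l) (bas i) ≠ 0 := fun i l => by
    refine vec_ne_zero k σ _ ?_
    rw [hv.car]
    exact mem_insert_self _ _
  obtain ⟨c, hc, hc0, hrel⟩ := exists_weights hD hv ha
  have hint : ∀ G, car σ G = univ → ∀ H ⊆ G, H ≠ G → car σ H = univ → c G = 0 := by
    intro G hG H hH hne hHc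
    by_contra h1
    obtain ⟨h2, h3⟩ := hc G h1
    rw [hc0 G h2 h3 hG] at h1
    obtain ⟨w, _, rfl⟩ := c0_ne hv h1
    exact hne (fin_car hv w hH hHc)
  obtain ⟨s, hs1, hs2, hs3, hs4⟩ := lee hdown hD.dual 3 c hc hrel hint
  have h4 : ∀ G, #G = 3 + 1 → car σ G = univ → ∀ H ⊆ G, H ≠ G → car σ H = univ →
      s (ex G) = 0 := by
    intro G hG hGc H hH hne hHc
    by_contra h1
    obtain ⟨h2, h3⟩ := hs1 _ h1
    rw [lb_ex_support] at h2
    rw [hs3 G h2 hG] at h1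
    exact h1 (hint G hGc H hH hne hHc)
  have hw : (fun _ => 1 : Fin 4 → Fin 3) ∈ words := by decide
  have hcyc := cyc_ne _ hw
  refine not_gen hdown hs1 hs2 hs4 h4 (hv.face _ hw) (fin_card hv _) (fin_univ hv _) ?_
  rw [hs3 _ (hv.face _ hw) (fin_card hv _), hc0 _ (hv.face _ hw) (fin_card hv _) (fin_univ hv _)]
  change c0 (vec k σ) v (fw v fun _ => 1) ≠ 0
  rw [c0_fw hv]
  refine div_ne_zero ?_ (prod_ne_zero_iff.mpr fun i _ => ha i _)
  intro h5
  exact hcyc ((CharP.intCast_eq_zero_iff (GenField k σ) 3 _).mp h5)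

end Pool.Agent.Lib.MP_fd6ff4_co.R43
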