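import Pool.Agent.Lib.MP_fd6ff4_co.R43.Alg.Lin
import Pool.Agent.Lib.MP_fd6ff4_co.R43.Statement

/-!
# R43, part T3: the generic vectors of the vertices of a face are linearly independent
-/

set_option autoImplicit false

open Finset

namespace Pool.Agent.Lib.MP_fd6ff4_co.R43

variable {d n : ℕ}

/-- the vector of the vertex `v` -/
noncomputable def vec (k : Type*) [Field k] (σ : Fin n → Finset (Fin d)) (v : Fin n) :
    Fin d → GenField k σ := fun i => genA k σ i v

theorem vec_zero (k : Type*) [Field k] (σ : Fin n → Finset (Fin d)) (v : Fin n) {i : Fin d}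
    (h : i ∉ σ v) : vec k σ v i = 0 := by
  unfold vec genA
  rw [dif_neg h]

theorem vec_ne_zero (k : Type*) [Field k] (σ : Fin n → Finset (Fin d)) (v : Fin n) {i : Fin d}
    (h : i ∈ σ v) : vec k σ v i ≠ 0 := by
  unfold vec genA
  rw [dif_pos h]
  intro h0
  rw [← map_zero (algebraMap (MvPolynomial (Idx σ) k) (GenField k σ))] at h0
  exact MvPolynomial.X_ne_zero _ (IsFractionRing.injective (MvPolynomial (Idx σ) k)
    (GenField k σ) h0)

/-- the generic coefficients, as polynomials -/
noncomputable def polA (k : Type*) [Field k] (σ : Fin n → Finset (Fin d)) (i : Fin d) (j : Fin n) :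
    MvPolynomial (Idx σ) k := if h : i ∈ σ j then MvPolynomial.X ⟨(i, j), h⟩ else 0

theorem vec_eq_polA (k : Type*) [Field k] (σ : Fin n → Finset (Fin d)) (v : Fin n) (i : Fin d) :
    vec k σ v i = algebraMap (MvPolynomial (Idx σ) k) (GenField k σ) (polA k σ i v) := by
  unfold vec genA polA
  split_ifs with h
  · rfl
  · rw [map_zero]

/-- PROOF. Hall (`Finset.all_card_le_biUnion_card_iff_exists_injective` for the family `σ v`,
`v : G`) gives an injective `f : G → Fin d` with `f v ∈ σ v`. The determinant of the matrix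
`X (f u, v)` (`0` if `f u ∉ σ v`) over the polynomial ring is not zero: specialize `X (f v, v) = 1`
and all the other variables to `0`. The rows of the inverse matrix over the fraction field give
`ξ u i = ∑ w, B⁻¹ u w * [i = f w]`. -/
theorem exists_dual (k : Type*) [Field k] (σ : Fin n → Finset (Fin d)) (G : Finset (Fin n))
    (hG : ∀ F ⊆ G, #F ≤ #(car σ F)) : ∃ ξ : Fin n → Fin d → GenField k σ,
      DualFam (vec k σ) G ξ := by
  classical
  -- Hall
  obtain ⟨f, hf, hfm⟩ : ∃ f : G → Fin d, Function.Injective f ∧ ∀ v : G, f v ∈ σ v := by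
    refine (Finset.all_card_le_biUnion_card_iff_exists_injective
      (fun v : G => σ (v : Fin n))).1 ?_
    intro s
    have h1 := hG (s.map (Function.Embedding.subtype _)) (by
      intro x hx
      obtain ⟨y, _, rfl⟩ := Finset.mem_map.1 hx
      exact y.2)
    rw [Finset.card_map] at h1
    have h2 : car σ (s.map (Function.Embedding.subtype _)) = s.biUnion fun v : G => σ (v : Fin n) := by
      ext x
      simp [car]
    rw [h2] at h1
    exact h1
  -- the matrix over the polynomial ring
  let B : Matrix G G (MvPolynomial (Idx σ) k) := fun u v => polA k σ (f u) v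
  have hB : B.det ≠ 0 := by
    intro h0
    let ev : MvPolynomial (Idx σ) k →+* k :=
      MvPolynomial.eval fun x => if ∃ v : G, x.1 = (f v, (v : Fin n)) then 1 else 0
    have h1 : ev.mapMatrix B = 1 := by
      ext u v
      rw [RingHom.mapMatrix_apply, Matrix.map_apply, Matrix.one_apply]
      change ev (polA k σ (f u) v) = _
      unfold polA
      by_cases huv : u = v
      · subst huv
        rw [dif_pos (hfm u), if_pos rfl]
        change MvPolynomial.eval _ (MvPolynomial.X _) = 1
        rw [MvPolynomial.eval_X, if_pos ⟨u, rfl⟩]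
      · rw [if_neg huv]
        split_ifs with h
        · change MvPolynomial.eval _ (MvPolynomial.X _) = 0
          rw [MvPolynomial.eval_X, if_neg]
          rintro ⟨w, hw⟩
          have e1 : f u = f w := congrArg Prod.fst hw
          have e2 : (v : Fin n) = w := congrArg Prod.snd hw
          exact huv ((hf e1).trans (Subtype.ext e2).symm)
        · rw [map_zero]
    have h2 := ev.map_det B
    rw [h0, map_zero, h1, Matrix.det_one] at h2
    exact zero_ne_one h2
  -- the matrix over the field
  let φ := algebraMap (MvPolynomial (Idx σ) k) (GenField k σ)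
  let M : Matrix G G (GenField k σ) := φ.mapMatrix B
  have hM : IsUnit M.det := by
    have h1 := φ.map_det B
    refine isUnit_iff_ne_zero.2 fun h => hB ?_
    refine IsFractionRing.injective (MvPolynomial (Idx σ) k) (GenField k σ) ?_
    rw [map_zero]
    exact h1.trans h
  have hMinv : M⁻¹ * M = 1 := Matrix.nonsing_inv_mul M hM
  have hMv : ∀ u v : G, M u v = vec k σ v (f u) := fun u v => (vec_eq_polA k σ v (f u)).symm
  refine ⟨fun u i => if hu : u ∈ G then ∑ w : G, M⁻¹ ⟨u, hu⟩ w * (if i = f w then 1 else 0) else 0,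
    ?_⟩
  intro u hu v hv
  unfold pr
  have h1 : ∀ i, (if hu : u ∈ G then ∑ w : G, M⁻¹ ⟨u, hu⟩ w * (if i = f w then 1 else 0) else 0)
      * vec k σ v i = ∑ w : G, M⁻¹ ⟨u, hu⟩ w * (if i = f w then vec k σ v i else 0) := by
    intro i
    rw [dif_pos hu, sum_mul]
    refine sum_congr rfl fun w _ => ?_
    split_ifs
    · rw [mul_one]
    · rw [mul_zero, zero_mul]
  simp only [h1]
  rw [sum_comm]
  have h2 : ∀ w : G, ∑ i, M⁻¹ ⟨u, hu⟩ w * (if i = f w then vec k σ v i else 0) =
      M⁻¹ ⟨u, hu⟩ w * M w ⟨v, hv⟩ := by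
    intro w
    rw [← mul_sum, sum_ite_eq' univ (f w), if_pos (mem_univ _), hMv]
  simp only [h2]
  have h3 := congrFun (congrFun hMinv ⟨u, hu⟩) ⟨v, hv⟩
  rw [Matrix.mul_apply, Matrix.one_apply] at h3
  rw [h3]
  simp only [Subtype.mk.injEq]

end Pool.Agent.Lib.MP_fd6ff4_co.R43
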