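import Pool.Agent.Lib.MP_fd6ff4_co.R43.Alg.Exc

/-!
# R43, part T3: extension of the weights to the monomials which are not square-free (Lee)
-/

set_option autoImplicit false

open Finset

namespace Pool.Agent.Lib.MP_fd6ff4_co.R43

variable {K : Type*} [Field K] {d n : ℕ} {a : Fin n → Fin d → K} {σ : Fin n → Finset (Fin d)}
  {Γ : Finset (Finset (Fin n))}

/-- the square-free exponent of `G` -/
noncomputable def ex (G : Finset (Fin n)) : Fin n →₀ ℕ := ∑ v ∈ G, Finsupp.single v 1

private theorem leeL_pr_sub (x y z : Fin d → K) : pr (x - y) z = pr x z - pr y z := by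
  simp only [pr, Pi.sub_apply, sub_mul, sum_sub_distrib]

private theorem leeL_pr_smul (c : K) (x z : Fin d → K) : pr (c • x) z = c * pr x z := by
  simp only [pr, Pi.smul_apply, smul_eq_mul, mul_sum]
  exact sum_congr rfl fun i _ => by ring

private theorem leeL_pr_sum {ι : Type*} (S : Finset ι) (g : ι → Fin d → K) (z : Fin d → K) :
    pr (∑ u ∈ S, g u) z = ∑ u ∈ S, pr (g u) z := by
  simp only [pr, Finset.sum_apply, sum_mul]
  exact sum_comm

private theorem leeL_pr_single (i : Fin d) (z : Fin d → K) : pr (Pi.single i 1) z = z i := by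
  simp [pr, Pi.single_apply]

private theorem leeL_sub {G : Finset (Fin n)} {M : Fin n →₀ ℕ} (hM : M.support = G) {v : Fin n}
    (hv : 2 ≤ M v) : (M - Finsupp.single v 1).support = G ∧
      (M - Finsupp.single v 1) + Finsupp.single v 1 = M := by
  constructor
  · rw [← hM]
    ext i
    rw [Finsupp.mem_support_iff, Finsupp.mem_support_iff, Finsupp.tsub_apply]
    by_cases hi : v = i
    · subst hi
      rw [Finsupp.single_eq_same]
      omega
    · rw [Finsupp.single_eq_of_ne' hi, Nat.sub_zero]
  · ext i
    rw [Finsupp.add_apply, Finsupp.tsub_apply]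
    by_cases hi : v = i
    · subst hi
      rw [Finsupp.single_eq_same]
      omega
    · rw [Finsupp.single_eq_of_ne' hi, Nat.sub_zero, Nat.add_zero]

private theorem leeL_deg (N : Fin n →₀ ℕ) (v : Fin n) :
    (N + Finsupp.single v 1).degree = N.degree + 1 := by
  rw [map_add, Finsupp.degree_single]

/-- One step: the relation for the exponents `N` with support `G`, `#G = r`, if the values on the
exponents with larger support are given. PROOF. With the dual family `ξ` of `G` put
`s M = - pr (ξ v) (R (M - v))` for some `v` with `2 ≤ M v`, where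
`R N = ∑ w ∉ G, s (N + w) • a w`; `hcomp` (contracted with `ξ u`, `ξ v`, and with `η` which kills the
`a u`, `u ∈ G`) says that it does not depend on `v` and that `R N` is in the span of the `a u`. -/
theorem lee_local {G : Finset (Fin n)} {ξ : Fin n → Fin d → K} (hξ : DualFam a G ξ) {q : ℕ}
    (R : (Fin n →₀ ℕ) → Fin d → K)
    (hcomp : ∀ N' : Fin n →₀ ℕ, N'.support = G → N'.degree + 1 = q → ∀ η ζ : Fin d → K,
      ∑ u ∈ G, (pr η (a u) * pr ζ (R (N' + Finsupp.single u 1)) -
        pr ζ (a u) * pr η (R (N' + Finsupp.single u 1))) = 0)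
    (hbase : ∀ N : Fin n →₀ ℕ, N.support = G → N.degree = q → q = #G → ∀ η : Fin d → K,
      (∀ u ∈ G, pr η (a u) = 0) → pr η (R N) = 0) :
    ∃ s : (Fin n →₀ ℕ) → K, ∀ N : Fin n →₀ ℕ, N.support = G → N.degree = q →
      ∑ u ∈ G, s (N + Finsupp.single u 1) • a u = R N := by
  classical
  -- the value does not depend on the choice
  have key : ∀ M : Fin n →₀ ℕ, M.support = G → M.degree = q + 1 → ∀ v ∈ G, 2 ≤ M v → ∀ w ∈ G,
      2 ≤ M w → pr (ξ v) (R (M - Finsupp.single v 1)) = pr (ξ w) (R (M - Finsupp.single w 1)) := by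
    intro M hM hdeg v hv hMv w hw hMw
    by_cases hvw : v = w
    · rw [hvw]
    · obtain ⟨s1, e1⟩ := leeL_sub hM hMv
      obtain ⟨s2, e2⟩ := leeL_sub hM hMw
      have hMw' : 2 ≤ (M - Finsupp.single v 1 : Fin n →₀ ℕ) w := by
        rw [Finsupp.tsub_apply, Finsupp.single_eq_of_ne' hvw, Nat.sub_zero]
        exact hMw
      obtain ⟨s3, e3⟩ := leeL_sub s1 hMw'
      have d1 := leeL_deg (M - Finsupp.single v 1) v
      rw [e1, hdeg] at d1
      have d3 := leeL_deg (M - Finsupp.single v 1 - Finsupp.single w 1) w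
      rw [e3] at d3
      have e4 : M - Finsupp.single v 1 - Finsupp.single w 1 + Finsupp.single v 1 =
          M - Finsupp.single w 1 := by
        have h5 : M - Finsupp.single v 1 - Finsupp.single w 1 + Finsupp.single v 1 +
            Finsupp.single w 1 = M - Finsupp.single w 1 + Finsupp.single w 1 := by
          rw [e2, add_right_comm, e3, e1]
        exact add_right_cancel h5
      have h1 := hcomp _ s3 (by omega) (ξ v) (ξ w)
      rw [sum_sub_distrib] at h1
      have h2 : ∑ u ∈ G, pr (ξ v) (a u) *
          pr (ξ w) (R (M - Finsupp.single v 1 - Finsupp.single w 1 + Finsupp.single u 1)) =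
          pr (ξ w) (R (M - Finsupp.single w 1)) := by
        rw [sum_eq_single v]
        · rw [hξ v hv v hv, if_pos rfl, one_mul, e4]
        · intro u hu huv
          rw [hξ v hv u hu, if_neg (Ne.symm huv), zero_mul]
        · intro h
          exact absurd hv h
      have h3 : ∑ u ∈ G, pr (ξ w) (a u) *
          pr (ξ v) (R (M - Finsupp.single v 1 - Finsupp.single w 1 + Finsupp.single u 1)) =
          pr (ξ v) (R (M - Finsupp.single v 1)) := by
        rw [sum_eq_single w]
        · rw [hξ w hw w hw, if_pos rfl, one_mul, e3]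
        · intro u hu huv
          rw [hξ w hw u hu, if_neg (Ne.symm huv), zero_mul]
        · intro h
          exact absurd hw h
      rw [h2, h3] at h1
      exact (sub_eq_zero.1 h1).symm
  refine ⟨fun M => if h : ∃ v ∈ G, 2 ≤ M v then
    pr (ξ h.choose) (R (M - Finsupp.single h.choose 1)) else 0, ?_⟩
  intro N hN hdeg
  -- the values
  have hs : ∀ u ∈ G, (if h : ∃ v ∈ G, 2 ≤ (N + Finsupp.single u 1 : Fin n →₀ ℕ) v then
      pr (ξ h.choose) (R (N + Finsupp.single u 1 - Finsupp.single h.choose 1)) else 0) =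
      pr (ξ u) (R N) := by
    intro u hu
    have hNu : N u ≠ 0 := by
      rw [← Finsupp.mem_support_iff, hN]
      exact hu
    have h2 : 2 ≤ (N + Finsupp.single u 1 : Fin n →₀ ℕ) u := by
      rw [Finsupp.add_apply, Finsupp.single_eq_same]
      omega
    have h : ∃ v ∈ G, 2 ≤ (N + Finsupp.single u 1 : Fin n →₀ ℕ) v := ⟨u, hu, h2⟩
    rw [dif_pos h]
    have hM : (N + Finsupp.single u 1).support = G := by
      rw [← hN]
      ext i
      rw [Finsupp.mem_support_iff, Finsupp.mem_support_iff, Finsupp.add_apply]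
      by_cases hi : u = i
      · subst hi
        rw [Finsupp.single_eq_same]
        omega
      · rw [Finsupp.single_eq_of_ne' hi, Nat.add_zero]
    have h3 := key (N + Finsupp.single u 1) hM (by rw [leeL_deg, hdeg]) h.choose
      h.choose_spec.1 h.choose_spec.2 u hu h2
    rw [h3, add_tsub_cancel_right]
  have hsum : ∑ u ∈ G, (fun M : Fin n →₀ ℕ => if h : ∃ v ∈ G, 2 ≤ M v then
      pr (ξ h.choose) (R (M - Finsupp.single h.choose 1)) else 0) (N + Finsupp.single u 1) • a u =
      ∑ u ∈ G, pr (ξ u) (R N) • a u := by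
    refine sum_congr rfl fun u hu => ?_
    congr 1
    exact hs u hu
  rw [hsum]
  -- the span
  have hspan : ∀ η : Fin d → K, (∀ u ∈ G, pr η (a u) = 0) → pr η (R N) = 0 := by
    intro η hη
    by_cases h : ∃ v ∈ G, 2 ≤ N v
    · obtain ⟨v, hv, hNv⟩ := h
      obtain ⟨s1, e1⟩ := leeL_sub hN hNv
      have d1 := leeL_deg (N - Finsupp.single v 1) v
      rw [e1, hdeg] at d1
      have h1 := hcomp _ s1 d1.symm η (ξ v)
      rw [sum_sub_distrib] at h1
      have h2 : ∑ u ∈ G, pr η (a u) *
          pr (ξ v) (R (N - Finsupp.single v 1 + Finsupp.single u 1)) = 0 :=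
        sum_eq_zero fun u hu => by rw [hη u hu, zero_mul]
      have h3 : ∑ u ∈ G, pr (ξ v) (a u) *
          pr η (R (N - Finsupp.single v 1 + Finsupp.single u 1)) = pr η (R N) := by
        rw [sum_eq_single v]
        · rw [hξ v hv v hv, if_pos rfl, one_mul, e1]
        · intro u hu huv
          rw [hξ v hv u hu, if_neg (Ne.symm huv), zero_mul]
        · intro h
          exact absurd hv h
      rw [h2, h3, zero_sub, neg_eq_zero] at h1
      exact h1
    · push Not at h
      refine hbase N hN hdeg ?_ η hη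
      rw [← hdeg, Finsupp.degree_apply, hN, card_eq_sum_ones]
      refine sum_congr rfl fun i hi => ?_
      have h1 := h i hi
      have h2 : N i ≠ 0 := by
        rw [← Finsupp.mem_support_iff, hN]
        exact hi
      omega
  funext i
  rw [Finset.sum_apply]
  have h1 := hspan (Pi.single i 1 - ∑ u ∈ G, (a u i) • ξ u) (by
    intro v hv
    rw [leeL_pr_sub, leeL_pr_single, leeL_pr_sum, sum_eq_single v]
    · rw [leeL_pr_smul, hξ v hv v hv, if_pos rfl, mul_one, sub_self]
    · intro u hu huv
      rw [leeL_pr_smul, hξ u hu v hv, if_neg huv, mul_zero]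
    · intro h
      exact absurd hv h)
  rw [leeL_pr_sub, leeL_pr_single, leeL_pr_sum, sub_eq_zero] at h1
  rw [h1]
  refine sum_congr rfl fun u _ => ?_
  rw [leeL_pr_smul, Pi.smul_apply, smul_eq_mul, mul_comm]

end Pool.Agent.Lib.MP_fd6ff4_co.R43
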