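import Pool.Agent.Lib.MP_fd6ff4_co.R43.Alg.ExtB

/-!
# R43, part T3: linear algebra over an independent family with dual functionals
-/

set_option autoImplicit false

open Finset

namespace Pool.Agent.Lib.MP_fd6ff4_co.R43

variable {K : Type*} [Field K] {d n : ℕ}

/-- `ξ` is a dual family of `a` on `G` -/
def DualFam (a : Fin n → Fin d → K) (G : Finset (Fin n)) (ξ : Fin n → Fin d → K) : Prop :=
  ∀ u ∈ G, ∀ v ∈ G, pr (ξ u) (a v) = if u = v then 1 else 0

theorem DualFam.mono {a : Fin n → Fin d → K} {G H : Finset (Fin n)} {ξ : Fin n → Fin d → K}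
    (h : DualFam a G ξ) (hH : H ⊆ G) : DualFam a H ξ :=
  fun u hu v hv => h u (hH hu) v (hH hv)

/-- Koszul exactness. PROOF. Induction over subsets `G'` of `G` (`∀ v ∈ G'`); step `w`:
`x + ct (ξ w) (e w - wd (a w) x)`, with `ct_wd`. -/
theorem kos {a : Fin n → Fin d → K} {G : Finset (Fin n)} {ξ : Fin n → Fin d → K}
    (hξ : DualFam a G ξ) {U : Finset (Fin d)} {k : ℕ} (ha : ∀ v ∈ G, ∀ i, i ∉ U → a v i = 0)
    (e : Fin n → Lam K d) (he : ∀ v ∈ G, e v ∈ MU K U (k + 1))
    (h1 : ∀ u ∈ G, ∀ v ∈ G, wd (a u) (e v) + wd (a v) (e u) = 0)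
    (h2 : ∀ v ∈ G, wd (a v) (e v) = 0) : ∃ x ∈ MU K U k, ∀ v ∈ G, wd (a v) x = e v := by
  have key : ∀ G' : Finset (Fin n), G' ⊆ G → ∃ x ∈ MU K U k, ∀ v ∈ G', wd (a v) x = e v := by
    intro G'
    induction G' using Finset.induction_on with
    | empty => exact fun _ => ⟨0, Submodule.zero_mem _, by simp⟩
    | insert w G' hw ih =>
      intro hsub
      have hwG : w ∈ G := hsub (mem_insert_self _ _)
      obtain ⟨x, hx, hx'⟩ := ih ((subset_insert _ _).trans hsub)
      have hr : e w - wd (a w) x ∈ MU K U (k + 1) :=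
        Submodule.sub_mem _ (he w hwG) (wd_mem (ha w hwG) hx)
      refine ⟨x + ct (ξ w) (e w - wd (a w) x), Submodule.add_mem _ hx (ct_mem _ hr), ?_⟩
      intro v hv
      have hct : ∀ b : Fin d → K, ∀ y : Lam K d,
          wd b (ct (ξ w) y) = pr (ξ w) b • y - ct (ξ w) (wd b y) := by
        intro b y
        rw [ct_wd]
        abel
      rw [map_add, hct]
      rcases mem_insert.mp hv with rfl | hv'
      · rw [hξ v hwG v hwG, if_pos rfl, one_smul, map_sub, h2 v hwG, wd_self, sub_zero, map_zero]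
        abel
      · have hne : w ≠ v := fun h => hw (h ▸ hv')
        have hvG : v ∈ G := hsub (mem_insert_of_mem hv')
        rw [hξ w hwG v hvG, if_neg hne, zero_smul, map_sub, wd_wd (a v) (a w) x, hx' v hv',
          sub_neg_eq_add, h1 v hvG w hwG, map_zero, sub_zero, add_zero]
  exact key G (Subset.refl G)

/-- PROOF. `f v = ∑ u ∈ G with v ≤ u, ct (ξ u) (lam v u)`: `wd (a w) (f v)` is `lam v w` if
`v ≤ w` and `0` otherwise (`ct_wd`, and `wd (a w) (lam v u) ∈ MU U (#U + 1)` is zero). -/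
theorem polar {a : Fin n → Fin d → K} {G : Finset (Fin n)} {ξ : Fin n → Fin d → K}
    (hξ : DualFam a G ξ) {U : Finset (Fin d)} {k : ℕ} (hk : #U = k + 1)
    (ha : ∀ v ∈ G, ∀ i, i ∉ U → a v i = 0) (lam : Fin n → Fin n → Lam K d)
    (hlam : ∀ u ∈ G, ∀ v ∈ G, lam u v ∈ MU K U (k + 1)) :
    ∃ f : Fin n → Lam K d, (∀ v ∈ G, f v ∈ MU K U k) ∧
      (∀ u ∈ G, ∀ v ∈ G, u < v → wd (a u) (f v) + wd (a v) (f u) = lam u v) ∧
      ∀ v ∈ G, wd (a v) (f v) = lam v v := by
  have hz : ∀ w ∈ G, ∀ u ∈ G, ∀ v ∈ G, wd (a w) (lam v u) = 0 := by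
    intro w hw u hu v hv
    exact MU_eq_zero (by omega : #U < k + 1 + 1) (wd_mem (ha w hw) (hlam v hv u hu))
  have hf : ∀ w ∈ G, ∀ v ∈ G, wd (a w) (∑ u ∈ G with v ≤ u, ct (ξ u) (lam v u)) =
      if v ≤ w then lam v w else 0 := by
    intro w hw v hv
    rw [map_sum]
    have : ∀ u ∈ G.filter (fun u => v ≤ u), wd (a w) (ct (ξ u) (lam v u)) =
        if u = w then lam v u else 0 := by
      intro u hu
      have huG := (mem_filter.mp hu).1
      have := ct_wd (ξ u) (a w) (lam v u)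
      rw [hz w hw u huG v hv, map_zero, hξ u huG w hw] at this
      have h2 : wd (a w) (ct (ξ u) (lam v u)) = (if u = w then (1 : K) else 0) • lam v u := by
        rw [← sub_eq_zero.mp this.symm]
      rw [h2]
      by_cases h : u = w
      · rw [if_pos h, if_pos h, one_smul]
      · rw [if_neg h, if_neg h, zero_smul]
    rw [sum_congr rfl this, sum_ite_eq' (G.filter (fun u => v ≤ u)) w (fun u => lam v u)]
    by_cases h : v ≤ w
    · rw [if_pos h, if_pos (mem_filter.mpr ⟨hw, h⟩)]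
    · rw [if_neg h, if_neg (fun h' => h (mem_filter.mp h').2)]
  refine ⟨fun v => ∑ u ∈ G with v ≤ u, ct (ξ u) (lam v u), ?_, ?_, ?_⟩
  · intro v hv
    exact Submodule.sum_mem _ fun u hu => ct_mem _ (hlam v hv u (mem_filter.mp hu).1)
  · intro u hu v hv huv
    rw [hf u hu v hv, hf v hv u hu, if_neg (not_le.mpr huv), if_pos huv.le, zero_add]
  · intro v hv
    rw [hf v hv v hv, if_pos le_rfl]

end Pool.Agent.Lib.MP_fd6ff4_co.R43
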