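import Pool.Agent.Lib.MP_fd6ff4_co.R43.Alg.Lin

/-!
# R43, part T3: factorization
-/

set_option autoImplicit false

open Finset

namespace Pool.Agent.Lib.MP_fd6ff4_co.R43

variable {K : Type*} [Field K] {d n : ℕ}

theorem linb_sq (v : Fin n) (G : Finset (Fin n)) : (sgn v G : K) * (sgn v G : K) = 1 := by
  rw [← Int.cast_mul, sgn_mul_self, Int.cast_one]

theorem linb_ct_av {a : Fin n → Fin d → K} {G : Finset (Fin n)} {η : Fin d → K}
    (h : ∀ u ∈ G, pr η (a u) = 0) : ct η (av a G) = 0 := by
  induction G using Finset.induction_on with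
  | empty =>
    rw [av_empty]
    funext P
    refine sum_eq_zero fun i _ => ?_
    simp [one1]
  | insert v G hv ih =>
    rw [av_insert a hv, map_smul, ct_wd, h v (mem_insert_self v G),
      ih fun u hu => h u (mem_insert_of_mem hu), zero_smul, map_zero, sub_zero, smul_zero]

/-- PROOF. Induction over `G`: `x = wd (a v) (ct (ξ v) x)` (`ct_wd`), `wg_insert`, signs. -/
theorem factor {a : Fin n → Fin d → K} {G : Finset (Fin n)} {ξ : Fin n → Fin d → K}
    (hξ : DualFam a G ξ) {U : Finset (Fin d)} (j : ℕ)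
    {x : Lam K d} (hx : x ∈ MU K U (#G + j)) (h : ∀ v ∈ G, wd (a v) x = 0) :
    ∃ y ∈ MU K U j, x = wg a G y := by
  induction G using Finset.induction_on generalizing x with
  | empty =>
    refine ⟨x, ?_, (wg_empty a x).symm⟩
    rwa [card_empty, Nat.zero_add] at hx
  | insert v G hv ih =>
    rw [card_insert_of_notMem hv] at hx
    have hx' : x ∈ MU K U (#G + j + 1) := by
      have e : #G + 1 + j = #G + j + 1 := by omega
      rwa [e] at hx
    have h1 : x = wd (a v) (ct (ξ v) x) := by
      have e := ct_wd (ξ v) (a v) x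
      rw [h v (mem_insert_self v G), map_zero, hξ v (mem_insert_self v G) v (mem_insert_self v G),
        if_pos rfl, one_smul] at e
      exact sub_eq_zero.1 e.symm
    have h2 : ∀ u ∈ G, wd (a u) (ct (ξ v) x) = 0 := by
      intro u hu
      have e := ct_wd (ξ v) (a u) x
      have hne : v ≠ u := fun hvu => hv (hvu ▸ hu)
      rw [h u (mem_insert_of_mem hu), map_zero, hξ v (mem_insert_self v G) u
        (mem_insert_of_mem hu), if_neg hne, zero_smul, zero_sub] at e
      exact neg_eq_zero.1 e.symm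
    obtain ⟨y, hy, hxy⟩ := ih (hξ.mono (subset_insert v G)) (ct_mem (ξ v) hx') h2
    refine ⟨(sgn v G : K) • y, (MU K U j).smul_mem _ hy, ?_⟩
    rw [wg_smul, wg_insert a hv, smul_smul, ← hxy, ← h1, linb_sq, one_smul]

theorem factor_av {a : Fin n → Fin d → K} {G : Finset (Fin n)} {ξ : Fin n → Fin d → K}
    (hξ : DualFam a G ξ) {U : Finset (Fin d)}
    {x : Lam K d} (hx : x ∈ MU K U #G) (h : ∀ v ∈ G, wd (a v) x = 0) :
    ∃ c : K, x = c • av a G := by
  obtain ⟨y, hy, hxy⟩ := factor hξ 0 hx h
  refine ⟨y ∅, ?_⟩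
  rw [hxy, MU_zero hy, wg_smul]
  simp [av, one1]

/-- PROOF. `ct (ξ v) (av (insert v G)) = ± av G` for `v ∉ G` (`ct_wd`, `ct (ξ v) (av G) = 0` as
`pr (ξ v) (a u) = 0` for `u ∈ G`), induction over `G`. -/
theorem av_ne_zero {a : Fin n → Fin d → K} {G : Finset (Fin n)} {ξ : Fin n → Fin d → K}
    (hξ : DualFam a G ξ) : av a G ≠ 0 := by
  induction G using Finset.induction_on with
  | empty =>
    rw [av_empty]
    intro h
    have h1 := congrFun h ∅
    simp [one1] at h1
  | insert v G hv ih =>
    intro h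
    have h0 : ct (ξ v) (av a G) = 0 := linb_ct_av fun u hu => by
      have hne : v ≠ u := fun hvu => hv (hvu ▸ hu)
      rw [hξ v (mem_insert_self v G) u (mem_insert_of_mem hu), if_neg hne]
    have h1 : ct (ξ v) (av a (insert v G)) = (sgn v G : K) • av a G := by
      rw [av_insert a hv, map_smul, ct_wd, h0, map_zero, sub_zero,
        hξ v (mem_insert_self v G) v (mem_insert_self v G), if_pos rfl, one_smul]
    rw [h, map_zero] at h1
    apply ih (hξ.mono (subset_insert v G))
    have h2 : (sgn v G : K) • ((sgn v G : K) • av a G) = 0 := by rw [← h1, smul_zero]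
    rwa [smul_smul, linb_sq, one_smul] at h2

/-- PROOF. `ct η (wd b (av a G)) = pr η b • av a G` since `ct η (av a G) = 0`. -/
theorem pr_eq_zero {a : Fin n → Fin d → K} {G : Finset (Fin n)} {ξ : Fin n → Fin d → K}
    (hξ : DualFam a G ξ) {b : Fin d → K} (hb : wd b (av a G) = 0) (η : Fin d → K)
    (hη : ∀ u ∈ G, pr η (a u) = 0) : pr η b = 0 := by
  have e := ct_wd η b (av a G)
  rw [hb, map_zero, linb_ct_av hη, map_zero, sub_zero] at e
  exact (smul_eq_zero.1 e.symm).resolve_right (av_ne_zero hξ)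

end Pool.Agent.Lib.MP_fd6ff4_co.R43
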