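import Pool.Agent.Lib.MP_fd6ff4_co.R43.Alg.FamB
import Pool.Agent.Lib.MP_fd6ff4_co.R43.Alg.Exc5
import Pool.Agent.Lib.MP_fd6ff4_co.R43.Alg.Exc6

/-!
# R43, part T3: the solution
-/

set_option autoImplicit false

open Finset

namespace Pool.Agent.Lib.MP_fd6ff4_co.R43

variable {K : Type*} [Field K] {n : ℕ} {a : Fin n → Fin 7 → K} {σ : Fin n → Finset (Fin 7)}
  {Γ : Finset (Finset (Fin n))} {v : Fin 4 → Fin 3 → Fin n}

theorem sol_US_mono {S S' : Finset (Fin 4)} (h : S ⊆ S') : US S' ⊆ US S :=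
  sdiff_subset_sdiff (Finset.Subset.refl _) (image_subset_image h)

/-- PROOF. `exists_families`; `exact4` for the `p i j k`, `i < j < k`: `N i j k`; `exact5` for
`m 0 1 - N 0 1 2 - N 0 1 3`, `m 0 2 + N 0 1 2 - N 0 2 3`, `m 0 3 + N 0 1 3 + N 0 2 3`,
`m 1 2 - N 0 1 2 - N 1 2 3`, `m 1 3 - N 0 1 3 + N 1 2 3`, `m 2 3 - N 0 2 3 - N 1 2 3`: `M i j`;
`exact6` for `t 0 + M 0 1 + M 0 2 + M 0 3`, `t 1 - M 0 1 + M 1 2 + M 1 3`,
`t 2 - M 0 2 - M 1 2 + M 2 3`, `t 3 - M 0 3 - M 1 3 - M 2 3`: `y c`. -/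
theorem exists_solution [CharP K 3] (h : Data K a σ Γ) (hv : HasR43 Γ σ v)
    (ha : ∀ i l, a (v i l) (bas i) ≠ 0) :
    ∃ y : Fin 4 → Finset (Fin n) → Lam K 7, (∀ c, EE a σ Γ (US {c}) 4 (y c)) ∧
      ∀ H, bd (TT a v) H = ∑ c, bd (y c) H := by
  obtain ⟨t, m, p, ht, hm, hp, h1, h2, h3, h4, a1, a2, a3, a4, a5⟩ := exists_families h hv ha
  have N : ∀ i j k : Fin 4, i ≠ j → i ≠ k → j ≠ k →
      ∃ y, EE a σ Γ (US {i, j, k}) 2 y ∧ ∀ H, bd y H = p i j k H := by
    intro i j k hij hik hjk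
    refine exact4 h ?_ (hp i j k hij hik hjk) (h4 i j k)
    have h0 := card_US {i, j, k}
    rw [card_eq_three.2 ⟨i, j, k, hij, hik, hjk, rfl⟩] at h0
    omega
  obtain ⟨N012, e012, b012⟩ := N 0 1 2 (by decide) (by decide) (by decide)
  obtain ⟨N013, e013, b013⟩ := N 0 1 3 (by decide) (by decide) (by decide)
  obtain ⟨N023, e023, b023⟩ := N 0 2 3 (by decide) (by decide) (by decide)
  obtain ⟨N123, e123, b123⟩ := N 1 2 3 (by decide) (by decide) (by decide)
  have r1 : ∀ i j H, p i i j H = 0 := fun i j H => congrFun (a5 i j) H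
  have r2 : ∀ i j H, p i j i H = 0 := fun i j H => by
    rw [a4 i j i, Pi.neg_apply, r1, neg_zero]
  have r3 : ∀ i j k H, p k i j H = p i j k H := fun i j k H => by
    rw [a3 k i j, Pi.neg_apply, a4 i k j, Pi.neg_apply, neg_neg]
  have r4 : ∀ i j k H, p k i j H = -p i k j H := fun i j k H => by
    rw [a3 k i j, Pi.neg_apply]
  have M : ∀ i j : Fin 4, i ≠ j → ∀ z : Finset (Fin n) → Lam K 7, EE a σ Γ (US {i, j}) 2 z →
      (∀ H, bd z H = bd (m i j) H) →
      ∃ y, EE a σ Γ (US {i, j}) 3 y ∧ ∀ H, bd y H = m i j H - z H := by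
    intro i j hij z hz hb
    have hU : #(US {i, j}) = 5 := by
      have h0 := card_US {i, j}
      rw [card_pair hij] at h0
      omega
    obtain ⟨y, hy, hy'⟩ := exact5 h hU ((hm i j hij).sub hz) (fun H => by
      rw [bd_sub, hb, sub_self])
    exact ⟨y, hy, hy'⟩
  obtain ⟨M01, E01, B01⟩ := M 0 1 (by decide) (N012 + N013)
    ((e012.mono (sol_US_mono (by decide))).add (e013.mono (sol_US_mono (by decide)))) (fun H => by
      rw [bd_add, b012, b013, h3, Fin.sum_univ_four, r1, r2, r3 0 1 2, r3 0 1 3]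
      abel)
  obtain ⟨M02, E02, B02⟩ := M 0 2 (by decide) (-N012 + N023)
    ((e012.mono (sol_US_mono (by decide))).neg.add (e023.mono (sol_US_mono (by decide))))
    (fun H => by
      rw [bd_add, bd_neg, b012, b023, h3, Fin.sum_univ_four, r1, r2, r4 0 2 1, r3 0 2 3]
      abel)
  obtain ⟨M03, E03, B03⟩ := M 0 3 (by decide) (-N013 - N023)
    ((e013.mono (sol_US_mono (by decide))).neg.sub (e023.mono (sol_US_mono (by decide))))
    (fun H => by
      rw [bd_sub, bd_neg, b013, b023, h3, Fin.sum_univ_four, r1, r2, r4 0 3 1, r4 0 3 2]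
      abel)
  obtain ⟨M12, E12, B12⟩ := M 1 2 (by decide) (N012 + N123)
    ((e012.mono (sol_US_mono (by decide))).add (e123.mono (sol_US_mono (by decide)))) (fun H => by
      rw [bd_add, b012, b123, h3, Fin.sum_univ_four, r1, r2, r3 1 2 3]
      abel)
  obtain ⟨M13, E13, B13⟩ := M 1 3 (by decide) (N013 - N123)
    ((e013.mono (sol_US_mono (by decide))).sub (e123.mono (sol_US_mono (by decide)))) (fun H => by
      rw [bd_sub, b013, b123, h3, Fin.sum_univ_four, r1, r2, r4 1 3 2]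
      abel)
  obtain ⟨M23, E23, B23⟩ := M 2 3 (by decide) (N023 + N123)
    ((e023.mono (sol_US_mono (by decide))).add (e123.mono (sol_US_mono (by decide)))) (fun H => by
      rw [bd_add, b023, b123, h3, Fin.sum_univ_four, r1, r2]
      abel)
  have s1 : ∀ i H, m i i H = 0 := fun i H => congrFun (a2 i) H
  have s2 : ∀ i j H, m i j H = -m j i H := fun i j H => congrFun (a1 i j) H
  have hU : ∀ c : Fin 4, #(US {c}) = 6 := fun c => by
    have h0 := card_US {c}
    rw [card_singleton] at h0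
    omega
  have mo : ∀ {c c' : Fin 4} {x : Finset (Fin n) → Lam K 7}, EE a σ Γ (US {c, c'}) 3 x →
      EE a σ Γ (US {c}) 3 x ∧ EE a σ Γ (US {c'}) 3 x := fun hx =>
    ⟨hx.mono (sol_US_mono (by simp)), hx.mono (sol_US_mono (by simp))⟩
  obtain ⟨y0, F0, D0⟩ := exact6 h (hU 0) ((((ht 0).add (mo E01).1).add (mo E02).1).add (mo E03).1)
    (fun H => by
      rw [bd_add, bd_add, bd_add, B01, B02, B03, h2, Fin.sum_univ_four, s1, s2 1 0, s2 2 0, s2 3 0]
      simp only [Pi.add_apply, Pi.neg_apply, Pi.sub_apply]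
      abel)
  obtain ⟨y1, F1, D1⟩ := exact6 h (hU 1) ((((ht 1).sub (mo E01).2).add (mo E12).1).add (mo E13).1)
    (fun H => by
      rw [bd_add, bd_add, bd_sub, B01, B12, B13, h2, Fin.sum_univ_four, s1, s2 2 1, s2 3 1]
      simp only [Pi.add_apply, Pi.neg_apply, Pi.sub_apply]
      abel)
  obtain ⟨y2, F2, D2⟩ := exact6 h (hU 2) ((((ht 2).sub (mo E02).2).sub (mo E12).2).add (mo E23).1)
    (fun H => by
      rw [bd_add, bd_sub, bd_sub, B02, B12, B23, h2, Fin.sum_univ_four, s1, s2 3 2]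
      simp only [Pi.add_apply, Pi.neg_apply, Pi.sub_apply]
      abel)
  obtain ⟨y3, F3, D3⟩ := exact6 h (hU 3) ((((ht 3).sub (mo E03).2).sub (mo E13).2).sub (mo E23).2)
    (fun H => by
      rw [bd_sub, bd_sub, bd_sub, B03, B13, B23, h2, Fin.sum_univ_four, s1]
      simp only [Pi.add_apply, Pi.neg_apply, Pi.sub_apply]
      abel)
  refine ⟨![y0, y1, y2, y3], ?_, fun H => ?_⟩
  · intro c
    fin_cases c
    · exact F0
    · exact F1
    · exact F2
    · exact F3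
  · rw [h1, Fin.sum_univ_four, Fin.sum_univ_four]
    change t 0 H + t 1 H + t 2 H + t 3 H = bd y0 H + bd y1 H + bd y2 H + bd y3 H
    rw [D0, D1, D2, D3]
    simp only [Pi.add_apply, Pi.sub_apply]
    abel

end Pool.Agent.Lib.MP_fd6ff4_co.R43
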